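import Pool.Agent.T9h23.Ha.E2
import Pool.Agent.T9h23.Ru.R9
import Pool.Agent.T9h23.Ac.B1

/-! # Quartics: arguments up to `H ^ (13 / 2)` -/

set_option autoImplicit false

namespace T9h23.Ad

open Finset T9h23.Ru T9h23.Op
open scoped Classical

/-- the product of the factors -/
theorem prod_bound (u w : ℝ) (hw : 1 ≤ w) (huw : w ≤ u) (h13 : u ^ 2 ≤ w ^ 13) :
    u ^ 4 * ((u ^ 3)⁻¹ + (w ^ 12)⁻¹) * ((u ^ 3)⁻¹ + (w ^ 9)⁻¹) * ((u ^ 3)⁻¹ + (w ^ 6)⁻¹) ≤ 8 * w⁻¹ := by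
  have hu : 1 ≤ u := hw.trans huw
  have hw0 : 0 < w := by linarith
  have hu0 : 0 < u := by linarith
  have key : ∀ x y z : ℝ, 0 < x → 0 < y → 0 < z → (u ^ 3)⁻¹ ≤ x⁻¹ → (w ^ 12)⁻¹ ≤ x⁻¹ → (u ^ 3)⁻¹ ≤ y⁻¹ →
      (w ^ 9)⁻¹ ≤ y⁻¹ → (u ^ 3)⁻¹ ≤ z⁻¹ → (w ^ 6)⁻¹ ≤ z⁻¹ → u ^ 4 * w ≤ x * y * z →
      u ^ 4 * ((u ^ 3)⁻¹ + (w ^ 12)⁻¹) * ((u ^ 3)⁻¹ + (w ^ 9)⁻¹) * ((u ^ 3)⁻¹ + (w ^ 6)⁻¹) ≤ 8 * w⁻¹ := by
    intro x y z hx hy hz a1 a2 a3 a4 a5 a6 hfin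
    calc u ^ 4 * ((u ^ 3)⁻¹ + (w ^ 12)⁻¹) * ((u ^ 3)⁻¹ + (w ^ 9)⁻¹) * ((u ^ 3)⁻¹ + (w ^ 6)⁻¹)
        ≤ u ^ 4 * (x⁻¹ + x⁻¹) * (y⁻¹ + y⁻¹) * (z⁻¹ + z⁻¹) := by gcongr
      _ = 8 * (u ^ 4 * (x * y * z)⁻¹) := by
          rw [mul_inv, mul_inv]; ring
      _ ≤ 8 * w⁻¹ := by
          have h1 : u ^ 4 * (x * y * z)⁻¹ ≤ w⁻¹ := by
            rw [← div_eq_mul_inv, inv_eq_one_div, div_le_div_iff₀ (by positivity) hw0, one_mul]
            exact hfin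
          linarith
  rcases le_total u (w ^ 2) with h1 | h1
  · have e1 : u ^ 3 ≤ w ^ 6 := by
      calc u ^ 3 ≤ (w ^ 2) ^ 3 := by gcongr
        _ = w ^ 6 := by ring
    have e2 : w ^ 6 ≤ w ^ 9 := pow_le_pow_right₀ hw (by norm_num)
    have e3 : w ^ 6 ≤ w ^ 12 := pow_le_pow_right₀ hw (by norm_num)
    refine key (u ^ 3) (u ^ 3) (u ^ 3) (by positivity) (by positivity) (by positivity) le_rfl ?_ le_rfl ?_ le_rfl ?_ ?_
    · rw [inv_le_inv₀ (by positivity) (by positivity)]; linarith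
    · rw [inv_le_inv₀ (by positivity) (by positivity)]; linarith
    · rw [inv_le_inv₀ (by positivity) (by positivity)]; linarith
    · have h2 : w ≤ u ^ 5 := huw.trans (le_self_pow₀ hu (by norm_num))
      calc u ^ 4 * w ≤ u ^ 4 * u ^ 5 := by gcongr
        _ = u ^ 3 * u ^ 3 * u ^ 3 := by ring
  rcases le_total u (w ^ 3) with h2 | h2
  · have e1 : u ^ 3 ≤ w ^ 9 := by
      calc u ^ 3 ≤ (w ^ 3) ^ 3 := by gcongr
        _ = w ^ 9 := by ring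
    have e2 : w ^ 9 ≤ w ^ 12 := pow_le_pow_right₀ hw (by norm_num)
    have e3 : w ^ 6 ≤ u ^ 3 := by
      calc w ^ 6 = (w ^ 2) ^ 3 := by ring
        _ ≤ u ^ 3 := by gcongr
    refine key (u ^ 3) (u ^ 3) (w ^ 6) (by positivity) (by positivity) (by positivity) le_rfl ?_ le_rfl ?_ ?_ le_rfl ?_
    · rw [inv_le_inv₀ (by positivity) (by positivity)]; linarith
    · rw [inv_le_inv₀ (by positivity) (by positivity)]; linarith
    · rw [inv_le_inv₀ (by positivity) (by positivity)]; linarith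
    · have h3 : w ≤ w ^ 6 := le_self_pow₀ hw (by norm_num)
      have h4 : u ^ 4 ≤ u ^ 6 := pow_le_pow_right₀ hu (by norm_num)
      calc u ^ 4 * w ≤ u ^ 6 * w ^ 6 := by gcongr
        _ = u ^ 3 * u ^ 3 * w ^ 6 := by ring
  rcases le_total u (w ^ 4) with h3 | h3
  · have e1 : u ^ 3 ≤ w ^ 12 := by
      calc u ^ 3 ≤ (w ^ 4) ^ 3 := by gcongr
        _ = w ^ 12 := by ring
    have e2 : w ^ 9 ≤ u ^ 3 := by
      calc w ^ 9 = (w ^ 3) ^ 3 := by ring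
        _ ≤ u ^ 3 := by gcongr
    have e3 : w ^ 6 ≤ u ^ 3 := (pow_le_pow_right₀ hw (by norm_num)).trans e2
    refine key (u ^ 3) (w ^ 9) (w ^ 6) (by positivity) (by positivity) (by positivity) le_rfl ?_ ?_ le_rfl ?_ le_rfl ?_
    · rw [inv_le_inv₀ (by positivity) (by positivity)]; linarith
    · rw [inv_le_inv₀ (by positivity) (by positivity)]; linarith
    · rw [inv_le_inv₀ (by positivity) (by positivity)]; linarith
    · have h4 : u * w ≤ w ^ 9 * w ^ 6 := by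
        calc u * w ≤ w ^ 4 * w := by gcongr
          _ = w ^ 5 := by ring
          _ ≤ w ^ 15 := pow_le_pow_right₀ hw (by norm_num)
          _ = w ^ 9 * w ^ 6 := by ring
      calc u ^ 4 * w = u ^ 3 * (u * w) := by ring
        _ ≤ u ^ 3 * (w ^ 9 * w ^ 6) := by gcongr
        _ = u ^ 3 * w ^ 9 * w ^ 6 := by ring
  · have e1 : w ^ 12 ≤ u ^ 3 := by
      calc w ^ 12 = (w ^ 4) ^ 3 := by ring
        _ ≤ u ^ 3 := by gcongr
    have e2 : w ^ 9 ≤ u ^ 3 := (pow_le_pow_right₀ hw (by norm_num)).trans e1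
    have e3 : w ^ 6 ≤ u ^ 3 := (pow_le_pow_right₀ hw (by norm_num)).trans e1
    refine key (w ^ 12) (w ^ 9) (w ^ 6) (by positivity) (by positivity) (by positivity) ?_ le_rfl ?_ le_rfl ?_ le_rfl ?_
    · rw [inv_le_inv₀ (by positivity) (by positivity)]; linarith
    · rw [inv_le_inv₀ (by positivity) (by positivity)]; linarith
    · rw [inv_le_inv₀ (by positivity) (by positivity)]; linarith
    · calc u ^ 4 * w = (u ^ 2) ^ 2 * w := by ring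
        _ ≤ (w ^ 13) ^ 2 * w := by gcongr
        _ = w ^ 12 * w ^ 9 * w ^ 6 := by ring

/-- cube roots -/
theorem cube_root (N : ℕ) : ∃ u : ℝ, 0 ≤ u ∧ u ^ 3 = N ∧ ∀ e : ℝ, (N : ℝ) ^ (e / 3) = u ^ e := by
  refine ⟨(N : ℝ) ^ (1 / 3 : ℝ), by positivity, ?_, ?_⟩
  · rw [← Real.rpow_natCast, ← Real.rpow_mul (Nat.cast_nonneg N)]
    norm_num
  · intro e
    rw [← Real.rpow_mul (Nat.cast_nonneg N)]
    congr 1
    ring

/-- the loss -/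
theorem loss (X H : ℝ) (hX : 0 ≤ X) (hH : 1 ≤ H) (h : X ≤ 80 * H ^ 26) :
    X ^ (1 / 624 : ℝ) ≤ 80 * H ^ (1 / 24 : ℝ) := by
  have h0 : 0 ≤ H := by linarith
  calc X ^ (1 / 624 : ℝ) ≤ (80 * H ^ 26) ^ (1 / 624 : ℝ) := Real.rpow_le_rpow hX h (by norm_num)
    _ = 80 ^ (1 / 624 : ℝ) * (H ^ 26) ^ (1 / 624 : ℝ) := Real.mul_rpow (by norm_num) (by positivity)
    _ = 80 ^ (1 / 624 : ℝ) * H ^ (1 / 24 : ℝ) := by
        rw [← Real.rpow_natCast, ← Real.rpow_mul h0]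
        norm_num
    _ ≤ 80 * H ^ (1 / 24 : ℝ) := by
        have h1 : (80 : ℝ) ^ (1 / 624 : ℝ) ≤ 80 ^ (1 : ℝ) :=
          Real.rpow_le_rpow_of_exponent_le (by norm_num) (by norm_num)
        rw [Real.rpow_one] at h1
        gcongr

/-- **One range.** -/
theorem blk (E : ℤ → Prop) (K : ℝ) (hK : 0 < K) (H N : ℕ)
    (hcount : ∀ U : Finset ℤ, (∀ y ∈ U, |(y : ℝ)| ≤ 5 * (2 * (N : ℝ)) ^ 4 ∧ E y) →
      (U.card : ℝ) ≤ K * (5 * (2 * (N : ℝ)) ^ 4) ^ (1 / 3 : ℝ))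
    (hH : 1 ≤ H) (hN : H ≤ N) (hN13 : N ^ 2 ≤ H ^ 13) :
    (((wbox 4 H).filter (fun a => ∃ n : ℤ, (N : ℤ) ≤ |n| ∧ |n| ≤ 2 * N ∧ E (mv a n))).card : ℝ) ≤
      (wbox 4 H).card * (400 * K * ((H : ℝ) ^ (1 / 3 : ℝ))⁻¹) := by
  have hHr : (1 : ℝ) ≤ H := by exact_mod_cast hH
  have hH0 : (0 : ℝ) < H := by linarith
  have hNr : (H : ℝ) ≤ N := by exact_mod_cast hN
  have hN0 : (0 : ℝ) < N := by linarith
  have hN1 : (1 : ℝ) ≤ N := by linarith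
  set T : ℝ := ((wbox 4 H).card : ℝ) with hT
  have hT0 : 0 ≤ T := by positivity
  set M : ℤ := ((4 : ℕ) + 1) * (2 * (N : ℤ)) ^ 4 with hM
  set V := (Icc (-M) M).filter (fun v => E v) with hV
  set S : ℤ → Finset ℤ := fun v => (Icc (-(2 * (N : ℤ))) (2 * N)).filter
    (fun n => n ≠ 0 ∧ |v - n ^ 4| ≤ ((4 * H : ℕ) : ℤ) * |n| ^ (4 - 1) ∧ (N : ℤ) ≤ |n|) with hS
  set Pi : ℝ := ((N : ℝ)⁻¹ + ((H : ℝ) ^ 4)⁻¹) * ((N : ℝ)⁻¹ + ((H : ℝ) ^ 3)⁻¹) * ((N : ℝ)⁻¹ + ((H : ℝ) ^ 2)⁻¹) with hPi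
  have hPi0 : 0 ≤ Pi := by rw [hPi]; positivity
  set Q : ℝ := T * ((2 * (H : ℝ) + 1)⁻¹ * Pi) with hQ
  have hQ0 : 0 ≤ Q := by positivity
  have hsub : (wbox 4 H).filter (fun a => ∃ n : ℤ, (N : ℤ) ≤ |n| ∧ |n| ≤ 2 * N ∧ E (mv a n)) ⊆
      V.biUnion (fun v => (S v).biUnion (fun n => (wbox 4 H).filter (fun a => mv a n = v))) := by
    intro a ha
    rw [mem_filter] at ha
    obtain ⟨ha1, n, hn1, hn2, hbad⟩ := ha
    have hbox := mem_wbox.1 ha1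
    rw [mem_biUnion]
    refine ⟨mv a n, ?_, ?_⟩
    · rw [hV, mem_filter, mem_Icc, ← abs_le]
      refine ⟨?_, hbad⟩
      have h1 := mv_le (by omega) a hbox n (2 * N) hn2 (by omega)
      exact h1
    · rw [mem_biUnion]
      refine ⟨n, ?_, ?_⟩
      · rw [hS]
        dsimp only
        rw [mem_filter, mem_Icc, ← abs_le]
        refine ⟨hn2, ?_, ?_, hn1⟩
        · rintro rfl
          simp at hn1
          omega
        · have h1 := Ru.ev_le a hbox n |n| (le_refl _) (by omega)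
          rw [mv_ev, add_sub_cancel_left]
          push_cast at h1 ⊢
          exact h1
      · rw [mem_filter]
        exact ⟨ha1, rfl⟩
  have hSc : ∀ v, (S v).card ≤ 4 * (4 * H) + 2 := by
    intro v
    refine few_n 4 (4 * H) (by omega) v (S v) ?_
    intro n hn
    rw [hS] at hn
    dsimp only at hn
    rw [mem_filter] at hn
    exact ⟨hn.2.1, hn.2.2.1⟩
  have hfib : ∀ v, ∀ n ∈ S v, (((wbox 4 H).filter (fun a => mv a n = v)).card : ℝ) ≤ Q := by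
    intro v n hn
    rw [hS] at hn
    dsimp only at hn
    rw [mem_filter] at hn
    obtain ⟨_, hn0, _, hnN⟩ := hn
    have hnr : (N : ℝ) ≤ |(n : ℝ)| := by exact_mod_cast hnN
    have h1 := ratio 4 (by omega) H n v hn0
    refine h1.trans ?_
    rw [hQ]
    apply mul_le_mul_of_nonneg_left _ hT0
    apply mul_le_mul_of_nonneg_left _ (by positivity)
    rw [hPi, Finset.prod_range_succ, Finset.prod_range_succ, Finset.prod_range_succ, Finset.prod_range_zero, one_mul]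
    have key : ∀ k : ℕ, |(n : ℝ)|⁻¹ + (2 * (H : ℝ) ^ k + 1)⁻¹ ≤ (N : ℝ)⁻¹ + ((H : ℝ) ^ k)⁻¹ := by
      intro k
      have h2 : |(n : ℝ)|⁻¹ ≤ (N : ℝ)⁻¹ := by
        rw [inv_le_inv₀ (by linarith) hN0]; exact hnr
      have h3 : (2 * (H : ℝ) ^ k + 1)⁻¹ ≤ ((H : ℝ) ^ k)⁻¹ := by
        rw [inv_le_inv₀ (by positivity) (by positivity)]
        have : 0 < (H : ℝ) ^ k := by positivity
        linarith
      linarith
    have k4 := key 4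
    have k3 := key 3
    have k2 := key 2
    have e4 : 4 - 0 = 4 := rfl
    have e3 : 4 - 1 = 3 := rfl
    have e2 : 4 - 2 = 2 := rfl
    rw [e4, e3, e2]
    gcongr
  have hVc : (V.card : ℝ) ≤ K * (5 * (2 * (N : ℝ)) ^ 4) ^ (1 / 3 : ℝ) := by
    apply hcount
    intro y hy
    rw [hV, mem_filter, mem_Icc, ← abs_le] at hy
    refine ⟨?_, hy.2⟩
    have h1 : ((|y| : ℤ) : ℝ) ≤ ((M : ℤ) : ℝ) := by exact_mod_cast hy.1
    rw [hM] at h1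
    push_cast at h1
    norm_num at h1 ⊢
    exact h1
  have h1 : (((V.biUnion (fun v => (S v).biUnion (fun n => (wbox 4 H).filter
      (fun a => mv a n = v)))).card : ℕ) : ℝ) ≤ V.card * ((4 * (4 * H) + 2 : ℕ) * Q) := by
    have h2 : (((V.biUnion (fun v => (S v).biUnion (fun n => (wbox 4 H).filter
      (fun a => mv a n = v)))).card : ℕ) : ℝ) ≤ ∑ v ∈ V, (((S v).biUnion (fun n => (wbox 4 H).filter
      (fun a => mv a n = v))).card : ℝ) := by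
      exact_mod_cast Finset.card_biUnion_le
    refine h2.trans ?_
    refine (Finset.sum_le_card_nsmul V _ ((4 * (4 * H) + 2 : ℕ) * Q) ?_).trans (le_of_eq (nsmul_eq_mul _ _))
    intro v _
    have h3 : (((S v).biUnion (fun n => (wbox 4 H).filter (fun a => mv a n = v))).card : ℝ) ≤
        ∑ n ∈ S v, (((wbox 4 H).filter (fun a => mv a n = v)).card : ℝ) := by
      exact_mod_cast Finset.card_biUnion_le
    refine h3.trans ((Finset.sum_le_card_nsmul (S v) _ Q (hfib v)).trans ?_)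
    rw [nsmul_eq_mul]
    have h4 : ((S v).card : ℝ) ≤ ((4 * (4 * H) + 2 : ℕ) : ℝ) := by exact_mod_cast hSc v
    gcongr
  refine (show _ ≤ _ by exact_mod_cast Finset.card_le_card hsub).trans (h1.trans ?_)
  -- the final computation
  obtain ⟨u, hu0, hu3, hue⟩ := cube_root N
  obtain ⟨w, hw0, hw3, hwe⟩ := cube_root H
  have hw1 : 1 ≤ w := by
    by_contra hcon
    push Not at hcon
    have : w ^ 3 < 1 := pow_lt_one₀ hw0 hcon (by norm_num)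
    rw [hw3] at this
    linarith
  have huw : w ≤ u := by
    refine le_of_pow_le_pow_left₀ (n := 3) (by norm_num) hu0 ?_
    rw [hw3, hu3]; exact hNr
  have h13 : u ^ 2 ≤ w ^ 13 := by
    refine le_of_pow_le_pow_left₀ (n := 3) (by norm_num) (by positivity) ?_
    have e1 : (u ^ 2) ^ 3 = (N : ℝ) ^ 2 := by rw [← hu3]; ring
    have e2 : (w ^ 13) ^ 3 = (H : ℝ) ^ 13 := by rw [← hw3]; ring
    rw [e1, e2]
    exact_mod_cast hN13
  have hprod := prod_bound u w hw1 huw h13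
  have hN43 : (5 * (2 * (N : ℝ)) ^ 4) ^ (1 / 3 : ℝ) ≤ 5 * u ^ 4 := by
    have e1 : 5 * (2 * (N : ℝ)) ^ 4 ≤ (5 * u ^ 4) ^ 3 := by
      rw [← hu3]
      have : 0 ≤ u ^ 12 := by positivity
      nlinarith
    calc (5 * (2 * (N : ℝ)) ^ 4) ^ (1 / 3 : ℝ) ≤ ((5 * u ^ 4) ^ 3) ^ (1 / 3 : ℝ) :=
          Real.rpow_le_rpow (by positivity) e1 (by norm_num)
      _ = 5 * u ^ 4 := by
          rw [← Real.rpow_natCast, ← Real.rpow_mul (by positivity)]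
          norm_num
  have hPiu : u ^ 4 * Pi ≤ 8 * w⁻¹ := by
    rw [hPi, ← hu3, ← hw3]
    have e1 : (w ^ 3) ^ 4 = w ^ 12 := by ring
    have e2 : (w ^ 3) ^ 3 = w ^ 9 := by ring
    have e3 : (w ^ 3) ^ 2 = w ^ 6 := by ring
    rw [e1, e2, e3]
    calc _ = u ^ 4 * ((u ^ 3)⁻¹ + (w ^ 12)⁻¹) * ((u ^ 3)⁻¹ + (w ^ 9)⁻¹) * ((u ^ 3)⁻¹ + (w ^ 6)⁻¹) := by ring
      _ ≤ _ := hprod
  have hHw : (H : ℝ) ^ (1 / 3 : ℝ) = w := by
    rw [hwe 1, Real.rpow_one]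
  rw [hHw]
  have g1 : ((4 * (4 * H) + 2 : ℕ) : ℝ) * (2 * (H : ℝ) + 1)⁻¹ ≤ 8 := by
    rw [← div_eq_mul_inv, div_le_iff₀ (by positivity)]
    push_cast
    linarith
  obtain ⟨R1, hR1⟩ : ∃ R1 : ℝ, R1 = ((4 * (4 * H) + 2 : ℕ) : ℝ) := ⟨_, rfl⟩
  have hR10 : 0 ≤ R1 := by rw [hR1]; exact Nat.cast_nonneg _
  rw [← hR1] at g1 ⊢
  have hVc' : (V.card : ℝ) ≤ K * (5 * u ^ 4) := hVc.trans (mul_le_mul_of_nonneg_left hN43 hK.le)
  have hw0' : 0 ≤ w⁻¹ := by positivity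
  have f1 : (V.card : ℝ) * (R1 * Q) ≤ (K * (5 * u ^ 4)) * (R1 * Q) :=
    mul_le_mul_of_nonneg_right hVc' (mul_nonneg hR10 hQ0)
  have f2 : (K * (5 * u ^ 4)) * (R1 * Q) = T * (5 * K * (R1 * (2 * (H : ℝ) + 1)⁻¹) * (u ^ 4 * Pi)) := by
    rw [hQ]; ring
  have f3 : (R1 * (2 * (H : ℝ) + 1)⁻¹) * (u ^ 4 * Pi) ≤ 8 * (8 * w⁻¹) := by
    exact mul_le_mul g1 hPiu (mul_nonneg (by positivity) hPi0) (by norm_num)
  have f4 : 5 * K * (R1 * (2 * (H : ℝ) + 1)⁻¹) * (u ^ 4 * Pi) ≤ 400 * K * w⁻¹ := by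
    have f5 : 5 * K * (R1 * (2 * (H : ℝ) + 1)⁻¹) * (u ^ 4 * Pi) =
        5 * K * ((R1 * (2 * (H : ℝ) + 1)⁻¹) * (u ^ 4 * Pi)) := by ring
    rw [f5]
    have f6 : 5 * K * ((R1 * (2 * (H : ℝ) + 1)⁻¹) * (u ^ 4 * Pi)) ≤ 5 * K * (8 * (8 * w⁻¹)) :=
      mul_le_mul_of_nonneg_left f3 (by positivity)
    have f7 : 0 ≤ K * w⁻¹ := by positivity
    linarith
  rw [f2] at f1
  exact f1.trans (mul_le_mul_of_nonneg_left f4 hT0)

end T9h23.Ad
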