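import Pool.Agent.T9h23.Ad.D1

/-! # Quartics: all arguments up to `H ^ (13 / 2)` -/

set_option autoImplicit false

namespace T9h23.Ad

open Finset T9h23.Ru T9h23.Op
open scoped Classical

/-- **Small arguments.** -/
theorem sml (E : ℤ → Prop) (K : ℝ) (hK : 0 < K) (H : ℕ)
    (hcount : ∀ U : Finset ℤ, (∀ y ∈ U, |(y : ℝ)| ≤ 5 * (H : ℝ) ^ 4 ∧ E y) →
      (U.card : ℝ) ≤ K * (5 * (H : ℝ) ^ 4) ^ (1 / 3 : ℝ))
    (hH : 1 ≤ H) :
    (((wbox 4 H).filter (fun a => ∃ n : ℤ, |n| ≤ (H : ℤ) ∧ E (mv a n))).card : ℝ) ≤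
      (wbox 4 H).card * (6 * K * ((H : ℝ) ^ (1 / 3 : ℝ))⁻¹) := by
  have hHr : (1 : ℝ) ≤ H := by exact_mod_cast hH
  have hH0 : (0 : ℝ) < H := by linarith
  set T : ℝ := ((wbox 4 H).card : ℝ) with hT
  have hT0 : 0 ≤ T := by positivity
  set M : ℤ := ((4 : ℕ) + 1) * (H : ℤ) ^ 4 with hM
  set V := (Icc (-M) M).filter (fun v => E v) with hV
  set Q : ℝ := T * (2 * (H : ℝ) ^ 4 + 1)⁻¹ with hQ
  have hQ0 : 0 ≤ Q := by positivity
  have hsub : (wbox 4 H).filter (fun a => ∃ n : ℤ, |n| ≤ (H : ℤ) ∧ E (mv a n)) ⊆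
      V.biUnion (fun v => (Icc (-(H : ℤ)) H).biUnion (fun n => (wbox 4 H).filter (fun a => mv a n = v))) := by
    intro a ha
    rw [mem_filter] at ha
    obtain ⟨ha1, n, hn1, hbad⟩ := ha
    have hbox := mem_wbox.1 ha1
    rw [mem_biUnion]
    refine ⟨mv a n, ?_, ?_⟩
    · rw [hV, mem_filter, mem_Icc, ← abs_le]
      refine ⟨?_, hbad⟩
      exact mv_le (by omega) a hbox n H hn1 (le_refl _)
    · rw [mem_biUnion]
      refine ⟨n, ?_, ?_⟩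
      · rw [mem_Icc, ← abs_le]
        exact hn1
      · rw [mem_filter]
        exact ⟨ha1, rfl⟩
  have hfib : ∀ v n : ℤ, (((wbox 4 H).filter (fun a => mv a n = v)).card : ℝ) ≤ Q := by
    intro v n
    rw [filter_mv]
    have h1 := Ru.cnt0 n (v - n ^ (3 + 1)) 3 (fun i : Fin (3 + 1) => H ^ (3 + 1 - (i : ℕ)))
    rw [hQ, ← div_eq_mul_inv, le_div_iff₀ (by positivity)]
    have h2 : ((((wbox (3 + 1) H).filter (fun a => ev a n = v - n ^ (3 + 1))).card *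
        (2 * H ^ (3 + 1 - ((0 : Fin (3 + 1)) : ℕ)) + 1) : ℕ) : ℝ) ≤ (((wbox (3 + 1) H).card : ℕ) : ℝ) := by
      exact_mod_cast h1
    push_cast at h2
    simpa using h2
  have hVc : (V.card : ℝ) ≤ K * (5 * (H : ℝ) ^ 4) ^ (1 / 3 : ℝ) := by
    apply hcount
    intro y hy
    rw [hV, mem_filter, mem_Icc, ← abs_le] at hy
    refine ⟨?_, hy.2⟩
    have h1 : ((|y| : ℤ) : ℝ) ≤ ((M : ℤ) : ℝ) := by exact_mod_cast hy.1
    rw [hM] at h1
    push_cast at h1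
    norm_num at h1 ⊢
    exact h1
  have hIcc : ((Icc (-(H : ℤ)) H).card : ℝ) = 2 * H + 1 := by
    rw [Int.card_Icc]
    have : ((H : ℤ) + 1 - -(H : ℤ)).toNat = 2 * H + 1 := by omega
    rw [this]
    push_cast
    ring
  have h1 : (((V.biUnion (fun v => (Icc (-(H : ℤ)) H).biUnion (fun n => (wbox 4 H).filter
      (fun a => mv a n = v)))).card : ℕ) : ℝ) ≤ V.card * ((2 * H + 1) * Q) := by
    have h2 : (((V.biUnion (fun v => (Icc (-(H : ℤ)) H).biUnion (fun n => (wbox 4 H).filter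
      (fun a => mv a n = v)))).card : ℕ) : ℝ) ≤ ∑ v ∈ V, (((Icc (-(H : ℤ)) H).biUnion (fun n =>
      (wbox 4 H).filter (fun a => mv a n = v))).card : ℝ) := by
      exact_mod_cast Finset.card_biUnion_le
    refine h2.trans ?_
    refine (Finset.sum_le_card_nsmul V _ ((2 * H + 1) * Q) ?_).trans (le_of_eq (nsmul_eq_mul _ _))
    intro v _
    have h3 : (((Icc (-(H : ℤ)) H).biUnion (fun n => (wbox 4 H).filter (fun a => mv a n = v))).card : ℝ) ≤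
        ∑ n ∈ Icc (-(H : ℤ)) H, (((wbox 4 H).filter (fun a => mv a n = v)).card : ℝ) := by
      exact_mod_cast Finset.card_biUnion_le
    refine h3.trans ((Finset.sum_le_card_nsmul _ _ Q (fun n _ => hfib v n)).trans ?_)
    rw [nsmul_eq_mul, hIcc]
  refine (show _ ≤ _ by exact_mod_cast Finset.card_le_card hsub).trans (h1.trans ?_)
  obtain ⟨w, hw0, hw3, hwe⟩ := cube_root H
  have hw1 : 1 ≤ w := by
    by_contra hcon
    push Not at hcon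
    have : w ^ 3 < 1 := pow_lt_one₀ hw0 hcon (by norm_num)
    rw [hw3] at this
    linarith
  have hHw : (H : ℝ) ^ (1 / 3 : ℝ) = w := by
    rw [hwe 1, Real.rpow_one]
  rw [hHw]
  have hH43 : (5 * (H : ℝ) ^ 4) ^ (1 / 3 : ℝ) ≤ 2 * w ^ 4 := by
    have e1 : 5 * (H : ℝ) ^ 4 ≤ (2 * w ^ 4) ^ 3 := by
      rw [← hw3]
      have : 0 ≤ w ^ 12 := by positivity
      nlinarith
    calc (5 * (H : ℝ) ^ 4) ^ (1 / 3 : ℝ) ≤ ((2 * w ^ 4) ^ 3) ^ (1 / 3 : ℝ) :=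
          Real.rpow_le_rpow (by positivity) e1 (by norm_num)
      _ = 2 * w ^ 4 := by
          rw [← Real.rpow_natCast, ← Real.rpow_mul (by positivity)]
          norm_num
  have hVc' : (V.card : ℝ) ≤ K * (2 * w ^ 4) := hVc.trans (mul_le_mul_of_nonneg_left hH43 hK.le)
  have g5 : (2 * (H : ℝ) + 1) * (2 * (H : ℝ) ^ 4 + 1)⁻¹ ≤ 3 * (w ^ 9)⁻¹ := by
    have h6 : (2 * (H : ℝ) ^ 4 + 1)⁻¹ ≤ ((H : ℝ) ^ 4)⁻¹ := by
      rw [inv_le_inv₀ (by positivity) (by positivity)]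
      have : 0 < (H : ℝ) ^ 4 := by positivity
      linarith
    calc (2 * (H : ℝ) + 1) * (2 * (H : ℝ) ^ 4 + 1)⁻¹ ≤ (3 * H) * ((H : ℝ) ^ 4)⁻¹ := by
          gcongr
          linarith
      _ = 3 * (w ^ 9)⁻¹ := by
          rw [← hw3]
          have hw' : w ≠ 0 := by positivity
          field_simp
  have hw5 : w ^ 4 * (w ^ 9)⁻¹ ≤ w⁻¹ := by
    rw [← div_eq_mul_inv, inv_eq_one_div, div_le_div_iff₀ (by positivity) (by positivity), one_mul]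
    calc w ^ 4 * w = w ^ 5 := by ring
      _ ≤ w ^ 9 := pow_le_pow_right₀ hw1 (by norm_num)
  have f1 : (V.card : ℝ) * ((2 * H + 1) * Q) ≤ (K * (2 * w ^ 4)) * ((2 * H + 1) * Q) :=
    mul_le_mul_of_nonneg_right hVc' (mul_nonneg (by positivity) hQ0)
  refine f1.trans ?_
  have f2 : (K * (2 * w ^ 4)) * ((2 * H + 1) * Q) =
      T * (2 * K * (w ^ 4 * ((2 * (H : ℝ) + 1) * (2 * (H : ℝ) ^ 4 + 1)⁻¹))) := by
    rw [hQ]; ring
  rw [f2]
  apply mul_le_mul_of_nonneg_left _ hT0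
  calc 2 * K * (w ^ 4 * ((2 * (H : ℝ) + 1) * (2 * (H : ℝ) ^ 4 + 1)⁻¹)) ≤ 2 * K * (w ^ 4 * (3 * (w ^ 9)⁻¹)) := by
        gcongr
    _ = 6 * K * (w ^ 4 * (w ^ 9)⁻¹) := by ring
    _ ≤ 6 * K * w⁻¹ := by gcongr

/-- the hypothesis at one height -/
theorem at_height (E : ℤ → Prop) (K : ℝ) (hK : 0 < K)
    (hcount : ∀ Y : ℝ, 1 ≤ Y → ∀ U : Finset ℤ, (∀ y ∈ U, |(y : ℝ)| ≤ Y ∧ E y) →
      (U.card : ℝ) ≤ K * Y ^ (1 / 3 + 1 / 624 : ℝ)) (H : ℝ) (hH : 1 ≤ H) (X : ℝ) (hX : 1 ≤ X) (hXH : X ≤ 80 * H ^ 26)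
    (U : Finset ℤ) (hU : ∀ y ∈ U, |(y : ℝ)| ≤ X ∧ E y) :
    (U.card : ℝ) ≤ (K * (80 * H ^ (1 / 24 : ℝ))) * X ^ (1 / 3 : ℝ) := by
  have hX0 : 0 < X := by linarith
  refine (hcount X hX U hU).trans ?_
  rw [Real.rpow_add hX0]
  have h1 := loss X H hX0.le hH hXH
  have h2 : 0 ≤ X ^ (1 / 3 : ℝ) := by positivity
  calc K * (X ^ (1 / 3 : ℝ) * X ^ (1 / 624 : ℝ)) ≤ K * (X ^ (1 / 3 : ℝ) * (80 * H ^ (1 / 24 : ℝ))) := by gcongr
    _ = _ := by ring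

/-- **All arguments up to `H ^ (13 / 2)`.** -/
theorem low (E : ℤ → Prop) (K : ℝ) (hK : 0 < K)
    (hcount : ∀ Y : ℝ, 1 ≤ Y → ∀ U : Finset ℤ, (∀ y ∈ U, |(y : ℝ)| ≤ Y ∧ E y) →
      (U.card : ℝ) ≤ K * Y ^ (1 / 3 + 1 / 624 : ℝ))
    (H : ℕ) (hH : 1 ≤ H) :
    (((wbox 4 H).filter (fun a => ∃ n : ℤ, n ^ 2 ≤ (H : ℤ) ^ 13 ∧ E (mv a n))).card : ℝ) ≤
      (wbox 4 H).card * (12000000 * K * ((H : ℝ) ^ (1 / 4 : ℝ))⁻¹) := by
  have hHr : (1 : ℝ) ≤ H := by exact_mod_cast hH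
  have hH0 : (0 : ℝ) < H := by linarith
  set T : ℝ := ((wbox 4 H).card : ℝ) with hT
  have hT0 : 0 ≤ T := by positivity
  set J : ℕ := Nat.log 2 (H ^ 7) + 1 with hJ
  set S1 := (wbox 4 H).filter (fun a => ∃ n : ℤ, |n| ≤ (H : ℤ) ∧ E (mv a n)) with hS1
  set S2 : ℕ → Finset (Fin 4 → ℤ) := fun j => (wbox 4 H).filter
    (fun a => ∃ n : ℤ, ((2 ^ j * H : ℕ) : ℤ) ≤ |n| ∧ |n| ≤ 2 * ((2 ^ j * H : ℕ) : ℤ) ∧ E (mv a n)) with hS2
  set R := (range J).filter (fun j => (2 ^ j * H) ^ 2 ≤ H ^ 13) with hR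
  have hsub : (wbox 4 H).filter (fun a => ∃ n : ℤ, n ^ 2 ≤ (H : ℤ) ^ 13 ∧ E (mv a n)) ⊆ S1 ∪ R.biUnion S2 := by
    intro a ha
    rw [mem_filter] at ha
    obtain ⟨ha1, n, hn, hbad⟩ := ha
    rw [mem_union]
    by_cases c1 : |n| ≤ H
    · left
      rw [hS1, mem_filter]
      exact ⟨ha1, n, c1, hbad⟩
    push Not at c1
    right
    obtain ⟨j, hj1, hj2, hj3⟩ := dyadic H hH n c1
    have hna : ((n.natAbs : ℕ) : ℤ) = |n| := Int.natCast_natAbs n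
    have hn2 : n.natAbs ^ 2 ≤ H ^ 13 := by
      have : ((n.natAbs : ℕ) : ℤ) ^ 2 ≤ (H : ℤ) ^ 13 := by rw [hna, sq_abs]; exact hn
      exact_mod_cast this
    rw [mem_biUnion]
    refine ⟨j, ?_, ?_⟩
    · rw [hR, mem_filter, mem_range]
      constructor
      · rw [hJ, Nat.lt_succ_iff]
        apply Nat.le_log_of_pow_le (by norm_num)
        refine hj3.trans ?_
        by_contra hcon
        push Not at hcon
        have h1 : (H ^ 7) ^ 2 < n.natAbs ^ 2 := Nat.pow_lt_pow_left hcon (by norm_num)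
        have h2 : H ^ 13 ≤ (H ^ 7) ^ 2 := by
          rw [← pow_mul]
          exact Nat.pow_le_pow_right hH (by norm_num)
        omega
      · have h1 : 2 ^ j * H ≤ n.natAbs := by
          have : ((2 ^ j * H : ℕ) : ℤ) ≤ ((n.natAbs : ℕ) : ℤ) := by rw [hna]; exact hj1
          exact_mod_cast this
        exact (Nat.pow_le_pow_left h1 2).trans hn2
    · rw [hS2]
      dsimp only
      rw [mem_filter]
      exact ⟨ha1, n, hj1, hj2, hbad⟩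
  obtain ⟨b, hb⟩ : ∃ b : ℝ, b = ((H : ℝ) ^ (1 / 3 : ℝ))⁻¹ := ⟨_, rfl⟩
  have hb0 : 0 ≤ b := by rw [hb]; positivity
  obtain ⟨g, hg⟩ : ∃ g : ℝ, g = (H : ℝ) ^ (1 / 24 : ℝ) := ⟨_, rfl⟩
  have hg1 : 1 ≤ g := by rw [hg]; exact Real.one_le_rpow hHr (by norm_num)
  have hK' : 0 < K * (80 * g) := by positivity
  have b1 : (S1.card : ℝ) ≤ T * (6 * (K * (80 * g)) * b) := by
    rw [hb]
    refine sml E (K * (80 * g)) hK' H ?_ hH
    intro U hU
    rw [hg]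
    refine at_height E K hK hcount H hHr _ ?_ ?_ U hU
    · have h1 : (1 : ℝ) ≤ (H : ℝ) ^ 4 := one_le_pow₀ hHr
      linarith
    · have h1 : (H : ℝ) ^ 4 ≤ (H : ℝ) ^ 26 := pow_le_pow_right₀ hHr (by norm_num)
      have h2 : 0 < (H : ℝ) ^ 26 := by positivity
      linarith
  have b2 : ∀ j ∈ R, ((S2 j).card : ℝ) ≤ T * (400 * (K * (80 * g)) * b) := by
    intro j hj
    rw [hR, mem_filter] at hj
    have h1 : H ≤ 2 ^ j * H := Nat.le_mul_of_pos_left H (by positivity)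
    rw [hb]
    refine blk E (K * (80 * g)) hK' H (2 ^ j * H) ?_ hH h1 hj.2
    intro U hU
    rw [hg]
    have hNr : (1 : ℝ) ≤ ((2 ^ j * H : ℕ) : ℝ) := by exact_mod_cast hH.trans h1
    refine at_height E K hK hcount H hHr _ ?_ ?_ U hU
    · have h2 : (1 : ℝ) ≤ (2 * ((2 ^ j * H : ℕ) : ℝ)) ^ 4 := one_le_pow₀ (by linarith)
      linarith
    · have h2 : ((2 ^ j * H : ℕ) : ℝ) ^ 2 ≤ (H : ℝ) ^ 13 := by exact_mod_cast hj.2
      obtain ⟨N, hN⟩ : ∃ N : ℝ, N = ((2 ^ j * H : ℕ) : ℝ) := ⟨_, rfl⟩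
      rw [← hN] at h2 ⊢
      calc 5 * (2 * N) ^ 4 = 80 * (N ^ 2) ^ 2 := by ring
        _ ≤ 80 * ((H : ℝ) ^ 13) ^ 2 := by
            have h3 : 0 ≤ N ^ 2 := by positivity
            gcongr
        _ = 80 * (H : ℝ) ^ 26 := by ring
  have hJg : (J : ℝ) ≤ 337 * g := by
    have h5 := Nat.pow_log_le_self 2 (show H ^ 7 ≠ 0 by positivity)
    have h6 : ((2 : ℝ) ^ Nat.log 2 (H ^ 7)) ≤ (H : ℝ) ^ 7 := by exact_mod_cast h5
    have h7 := Real.log_le_log (by positivity) h6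
    rw [Real.log_pow, Real.log_pow] at h7
    have h8 : (1 : ℝ) / 2 ≤ Real.log 2 := by
      have := Real.log_two_gt_d9
      linarith
    have h9 : Real.log H ≤ 24 * g := by
      have := Real.log_le_rpow_div (x := (H : ℝ)) (by linarith) (by norm_num : (0 : ℝ) < 1 / 24)
      rw [← hg] at this
      linarith
    rw [hJ]
    push_cast at h7 ⊢
    have h10 : (0 : ℝ) ≤ (Nat.log 2 (H ^ 7) : ℝ) := Nat.cast_nonneg _
    nlinarith
  have b3 : ((R.biUnion S2).card : ℝ) ≤ 337 * g * (T * (400 * (K * (80 * g)) * b)) := by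
    have h1 : ((R.biUnion S2).card : ℝ) ≤ ∑ j ∈ R, ((S2 j).card : ℝ) := by exact_mod_cast Finset.card_biUnion_le
    refine h1.trans ((Finset.sum_le_card_nsmul _ _ _ b2).trans ?_)
    rw [nsmul_eq_mul]
    have h3 : R.card ≤ J := by
      calc R.card ≤ (range J).card := Finset.card_filter_le _ _
        _ = J := card_range J
    have h4 : (R.card : ℝ) ≤ 337 * g := (by exact_mod_cast h3 : (R.card : ℝ) ≤ J).trans hJg
    apply mul_le_mul_of_nonneg_right h4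
    positivity
  have hfin := (Finset.card_le_card hsub).trans (Finset.card_union_le _ _)
  have hfin' : (((wbox 4 H).filter (fun a => ∃ n : ℤ, n ^ 2 ≤ (H : ℤ) ^ 13 ∧ E (mv a n))).card : ℝ) ≤
      (S1.card : ℝ) + ((R.biUnion S2).card : ℝ) := by
    exact_mod_cast hfin
  have hgb : g * g * b = ((H : ℝ) ^ (1 / 4 : ℝ))⁻¹ := by
    rw [hg, hb, ← Real.rpow_neg hH0.le, ← Real.rpow_neg hH0.le, ← Real.rpow_add hH0, ← Real.rpow_add hH0]
    congr 1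
    norm_num
  rw [← hgb]
  have hTKb : 0 ≤ T * (K * (g * b)) := by positivity
  calc _ ≤ (S1.card : ℝ) + ((R.biUnion S2).card : ℝ) := hfin'
    _ ≤ T * (6 * (K * (80 * g)) * b) + 337 * g * (T * (400 * (K * (80 * g)) * b)) := add_le_add b1 b3
    _ = 480 * (T * (K * (g * b))) + 10784000 * (g * (T * (K * (g * b)))) := by ring
    _ ≤ 480 * (g * (T * (K * (g * b)))) + 10784000 * (g * (T * (K * (g * b)))) := by
        have : T * (K * (g * b)) ≤ g * (T * (K * (g * b))) := le_mul_of_one_le_left hTKb hg1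
        linarith
    _ ≤ 12000000 * (g * (T * (K * (g * b)))) := by
        have : 0 ≤ g * (T * (K * (g * b))) := by positivity
        linarith
    _ = _ := by ring

end T9h23.Ad
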