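import Pool.Agent.T9h23.Ab.A6
import Pool.Agent.T9h23.Ha.E2

/-! # Quartics: large arguments -/

set_option autoImplicit false

namespace T9h23.Ad

open Finset Polynomial T9h23.Ru T9h23.Ab T9h23.Pe

/-- the coefficients of index `7` and `8` of the expansion of `f ^ (3 / 2)` -/
noncomputable def c7 (a : Fin 4 → ℤ) : ℚ := cf (3 / 2) 9 (pol a) 7
noncomputable def c8 (a : Fin 4 → ℤ) : ℚ := cf (3 / 2) 9 (pol a) 8

/-- **Two relations for an exceptional value.** -/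
theorem near4 (A : ℕ) (hA : 1 ≤ A) : ∃ D : ℕ, 1 ≤ D ∧ ∃ C : ℝ, 1 ≤ C ∧ ∀ h : ℕ, 1 ≤ h → ∀ a : Fin 4 → ℤ,
    InBox h a → ∀ n : ℤ, C * h ≤ |(n : ℝ)| → ∀ y : ℤ, (y ^ 2 - (mv a n) ^ 3) ^ 2 ≤ A * |mv a n| →
    ∃ m j L1 L2 : ℤ, (L1 : ℚ) = D * c7 a ∧ (L2 : ℚ) = D * c8 a ∧ m * n = L1 + j ∧
      |(m : ℝ)| * |(n : ℝ)| ≤ C * (h : ℝ) ^ 7 ∧ |(j : ℝ)| * |(n : ℝ)| ≤ C * (h : ℝ) ^ 8 ∧
      |(j : ℝ) * n - L2| * |(n : ℝ)| ≤ C * (h : ℝ) ^ 9 := by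
  obtain ⟨C, hC, happ⟩ := approx (3 / 2) 4 9 (by omega)
  obtain ⟨D, hD, hden⟩ := cf_den (3 / 2) 9
  obtain ⟨B, hB, hcf⟩ := cf_le (3 / 2) 9 9
  have hDr : (1 : ℝ) ≤ D := by exact_mod_cast hD
  have hAr : (1 : ℝ) ≤ A := by exact_mod_cast hA
  refine ⟨D, hD, 8 + 2 * (D * B) + D * (C + 5 * A), by
    have h1 : 0 ≤ 2 * (D * B) := by positivity
    have h2 : 0 ≤ D * (C + 5 * A) := by positivity
    linarith, ?_⟩
  intro h hh a ha n hn1 y hy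
  have hh1 : (1 : ℝ) ≤ h := by exact_mod_cast hh
  have hC1 : 8 * (h : ℝ) ≤ |(n : ℝ)| := by
    refine le_trans ?_ hn1
    have : 0 ≤ 2 * (D * B) + D * (C + 5 * A) := by positivity
    nlinarith
  have hnpos : 0 < |(n : ℝ)| := by linarith
  have hn0 : n ≠ 0 := by
    rintro rfl
    simp at hnpos
  have hnr : (n : ℝ) ≠ 0 := by exact_mod_cast hn0
  have hn8 : 1 ≤ |(n : ℝ)| := by linarith
  have hhn : (h : ℝ) ≤ |(n : ℝ)| := by linarith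
  have hz : 2 * (((4 : ℕ) : ℝ) * ((h : ℝ) * |(n : ℝ)⁻¹|)) ≤ 1 := by
    rw [abs_inv]
    push_cast
    rw [show 2 * ((4 : ℝ) * ((h : ℝ) * |(n : ℝ)|⁻¹)) = (8 * h) / |(n : ℝ)| by field_simp; ring,
      div_le_one hnpos]
    exact hC1
  obtain ⟨hu, hser⟩ := happ h (pol a) (natDegree_pol a) (coeff_pol_zero a) (coeff_pol_le a ha) _ hz
  set u := aeval ((n : ℝ)⁻¹) (pol a) with hu_def
  have hu1 : (1 : ℝ) / 2 ≤ 1 + u := by
    have := (abs_le.1 hu).1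
    linarith
  have hu2 : 1 + u ≤ 3 / 2 := by
    have := (abs_le.1 hu).2
    linarith
  have hu0 : 0 < 1 + u := by linarith
  set w := (1 + u) ^ (((3 / 2 : ℚ)) : ℝ) with hw
  have hw0 : 0 ≤ w := Real.rpow_nonneg hu0.le _
  have hw3 : w ^ 2 = (1 + u) ^ 3 := by
    rw [hw, ← Real.rpow_natCast, ← Real.rpow_mul hu0.le]
    push_cast
    norm_num
  have hw1 : 1 / 4 ≤ w := by
    have h1 : (1 / 4 : ℝ) ^ 2 ≤ w ^ 2 := by
      rw [hw3]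
      calc (1 / 4 : ℝ) ^ 2 ≤ (1 / 2) ^ 3 := by norm_num
        _ ≤ (1 + u) ^ 3 := by gcongr
    exact le_of_sq_le_sq h1 hw0
  obtain ⟨z, hzd⟩ : ∃ z : ℝ, z = |(n : ℝ)| := ⟨_, rfl⟩
  have hz2 : z ^ 2 = (n : ℝ) ^ 2 := by rw [hzd, sq_abs]
  rw [← hzd] at hC1 hnpos hn8 hhn ⊢
  have hmv : (mv a n : ℝ) = z ^ 4 * (1 + u) := by
    rw [mv_eq a n hn0, ← hu_def]
    congr 1
    calc (n : ℝ) ^ 4 = ((n : ℝ) ^ 2) ^ 2 := by ring
      _ = z ^ 4 := by rw [← hz2]; ring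
  obtain ⟨s, hs⟩ : ∃ s : ℝ, s = z ^ 6 * w := ⟨_, rfl⟩
  have hs2 : s ^ 2 = (mv a n : ℝ) ^ 3 := by
    rw [hs, hmv, mul_pow, mul_pow, hw3]; ring
  have hs0 : z ^ 6 / 4 ≤ s := by
    rw [hs]
    have : 0 ≤ z ^ 6 := by positivity
    nlinarith
  have hspos : 0 < s := lt_of_lt_of_le (by positivity) hs0
  have hx0 : 0 < (mv a n : ℝ) := by rw [hmv]; positivity
  obtain ⟨v, hv⟩ : ∃ v : ℤ, v = |y| := ⟨_, rfl⟩
  have hv0 : (0 : ℝ) ≤ v := by rw [hv]; exact_mod_cast abs_nonneg y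
  have hv2 : (v : ℝ) ^ 2 = (y : ℝ) ^ 2 := by rw [hv]; push_cast; rw [sq_abs]
  -- the distance
  have hdist : |s - v| ≤ 5 * A / z ^ 4 := by
    have h1 : ((y : ℝ) ^ 2 - (mv a n : ℝ) ^ 3) ^ 2 ≤ A * |(mv a n : ℝ)| := by exact_mod_cast hy
    rw [abs_of_pos hx0, ← hs2, ← hv2] at h1
    have h2 : (|s - v| * s) ^ 2 ≤ A * (mv a n : ℝ) := by
      refine le_trans ?_ h1
      have h3 : ((v : ℝ) ^ 2 - s ^ 2) ^ 2 = (|s - v| * (s + v)) ^ 2 := by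
        rw [mul_pow, sq_abs]; ring
      rw [h3]
      have h4 : |s - v| * s ≤ |s - v| * (s + v) := by
        apply mul_le_mul_of_nonneg_left _ (abs_nonneg _)
        linarith
      have h5 : 0 ≤ |s - v| * s := by positivity
      exact pow_le_pow_left₀ h5 h4 2
    have h3 : (|s - v| * (z ^ 6 / 4)) ^ 2 ≤ 3 / 2 * A * z ^ 4 := by
      calc (|s - v| * (z ^ 6 / 4)) ^ 2 ≤ (|s - v| * s) ^ 2 := by gcongr
        _ ≤ A * (mv a n : ℝ) := h2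
        _ = A * (z ^ 4 * (1 + u)) := by rw [hmv]
        _ ≤ A * (z ^ 4 * (3 / 2)) := by gcongr
        _ = _ := by ring
    rw [le_div_iff₀ (by positivity)]
    have h4 : (|s - v| * (z ^ 6 / 4)) ^ 2 = (|s - v| * z ^ 4) ^ 2 * (z ^ 4 / 16) := by ring
    rw [h4] at h3
    have h5 : 0 < z ^ 4 := by positivity
    have h6 : (|s - v| * z ^ 4) ^ 2 ≤ (5 * A) ^ 2 := by
      have h7 : (|s - v| * z ^ 4) ^ 2 * (z ^ 4 / 16) ≤ (24 * A) * (z ^ 4 / 16) := by linarith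
      have h8 := le_of_mul_le_mul_right h7 (by positivity)
      nlinarith
    exact le_of_sq_le_sq h6 (by positivity)
  obtain ⟨f, hf⟩ : ∃ f : ℕ → ℝ, f = fun k => ((cf (3 / 2) 9 (pol a) k : ℚ) : ℝ) := ⟨_, rfl⟩
  have hser' : |w - ∑ k ∈ range 9, f k * (n : ℝ)⁻¹ ^ k| ≤ C * ((h : ℝ) * |(n : ℝ)⁻¹|) ^ 9 := by
    rw [hf]; exact hser
  obtain ⟨zf, hzf⟩ : ∃ zf : ℕ → ℤ, ∀ k, (D : ℚ) * cf (3 / 2) 9 (pol a) k = zf k :=
    ⟨fun k => (hden (pol a) k).choose, fun k => (hden (pol a) k).choose_spec⟩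
  have hzf' : ∀ k, (D : ℝ) * f k = zf k := by
    intro k
    rw [hf]; dsimp only; exact_mod_cast hzf k
  obtain ⟨G, hG⟩ : ∃ G : ℤ, G = ∑ k ∈ range 7, zf k * n ^ (6 - k) := ⟨_, rfl⟩
  have hsplit : (D : ℝ) * (z ^ 6 * ∑ k ∈ range 9, f k * (n : ℝ)⁻¹ ^ k) = G + zf 7 / n + zf 8 / (n : ℝ) ^ 2 := by
    have e0 : z ^ 6 = (n : ℝ) ^ 6 := by
      calc z ^ 6 = (z ^ 2) ^ 3 := by ring
        _ = (n : ℝ) ^ 6 := by rw [hz2]; ring
    rw [e0, Finset.sum_range_succ, Finset.sum_range_succ, hG]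
    push_cast
    rw [mul_add, mul_add, mul_add, mul_add, Finset.mul_sum, Finset.mul_sum]
    congr 1
    · congr 1
      · refine Finset.sum_congr rfl fun k hk => ?_
        rw [mem_range] at hk
        rw [← hzf' k]
        have e1 : (n : ℝ) ^ 6 = (n : ℝ) ^ (6 - k) * (n : ℝ) ^ k := by
          rw [← pow_add]; congr 1; omega
        rw [e1, inv_pow]
        field_simp
      · rw [← hzf' 7]
        field_simp
    · rw [← hzf' 8]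
      field_simp
  have herr : |(D : ℝ) * s - (G + zf 7 / n + zf 8 / (n : ℝ) ^ 2)| ≤ D * (C * (h : ℝ) ^ 9 / z ^ 3) := by
    rw [← hsplit, hs, ← mul_sub, ← mul_sub, abs_mul, abs_mul, abs_of_nonneg (by positivity : (0 : ℝ) ≤ z ^ 6),
      abs_of_nonneg (by positivity : (0 : ℝ) ≤ D)]
    gcongr
    refine (mul_le_mul_of_nonneg_left hser' (by positivity)).trans (le_of_eq ?_)
    rw [abs_inv, ← hzd, mul_pow, inv_pow]
    field_simp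
  obtain ⟨m, hm⟩ : ∃ m : ℤ, m = D * v - G := ⟨_, rfl⟩
  obtain ⟨L1, hL1⟩ : ∃ L1 : ℤ, L1 = zf 7 := ⟨_, rfl⟩
  obtain ⟨L2, hL2⟩ : ∃ L2 : ℤ, L2 = zf 8 := ⟨_, rfl⟩
  rw [← hL1, ← hL2] at herr
  obtain ⟨R, hR⟩ : ∃ R : ℝ, R = D * (C + 5 * A) * (h : ℝ) ^ 9 := ⟨_, rfl⟩
  have hR0 : 0 ≤ R := by rw [hR]; positivity
  have hE : |(m : ℝ) - L1 / n - L2 / (n : ℝ) ^ 2| ≤ R / z ^ 3 := by
    have e1 : (m : ℝ) - L1 / n - L2 / (n : ℝ) ^ 2 =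
        ((D : ℝ) * s - (G + L1 / n + L2 / (n : ℝ) ^ 2)) + D * (v - s) := by
      rw [hm]; push_cast; ring
    rw [e1]
    refine (abs_add_le _ _).trans ?_
    rw [abs_mul, abs_of_nonneg (by positivity : (0 : ℝ) ≤ D), abs_sub_comm]
    have h1 : (D : ℝ) * |s - v| ≤ D * (5 * A * (h : ℝ) ^ 9 / z ^ 3) := by
      gcongr
      refine hdist.trans ?_
      have h2 : (1 : ℝ) ≤ (h : ℝ) ^ 9 := one_le_pow₀ hh1
      have h3 : z ^ 3 ≤ z ^ 4 := pow_le_pow_right₀ hn8 (by norm_num)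
      have h4 : (0 : ℝ) < z ^ 3 := by positivity
      have h5 : (5 : ℝ) * A ≤ 5 * A * (h : ℝ) ^ 9 := le_mul_of_one_le_right (by positivity) h2
      gcongr
    have h2 : R / z ^ 3 = D * (C * (h : ℝ) ^ 9 / z ^ 3) + D * (5 * A * (h : ℝ) ^ 9 / z ^ 3) := by
      rw [hR]; ring
    rw [h2]
    rw [abs_sub_comm s (v : ℝ)] at h1
    have h3 : |(G : ℝ) + L1 / n + L2 / (n : ℝ) ^ 2 - D * s| = |(D : ℝ) * s - (G + L1 / n + L2 / (n : ℝ) ^ 2)| :=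
      abs_sub_comm _ _
    linarith
  obtain ⟨j, hj⟩ : ∃ j : ℤ, j = m * n - L1 := ⟨_, rfl⟩
  have hB7 : |(L1 : ℝ)| ≤ D * B * (h : ℝ) ^ 7 := by
    rw [hL1, ← hzf' 7, abs_mul, abs_of_nonneg (by positivity : (0 : ℝ) ≤ D), mul_assoc]
    gcongr
    rw [hf]
    exact hcf h (pol a) (coeff_pol_le a ha) 7 (by omega)
  have hB8 : |(L2 : ℝ)| ≤ D * B * (h : ℝ) ^ 8 := by
    rw [hL2, ← hzf' 8, abs_mul, abs_of_nonneg (by positivity : (0 : ℝ) ≤ D), mul_assoc]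
    gcongr
    rw [hf]
    exact hcf h (pol a) (coeff_pol_le a ha) 8 (by omega)
  have hjn : |(j : ℝ) * n - L2| * z ≤ R := by
    have e1 : (j : ℝ) * n - L2 = ((m : ℝ) - L1 / n - L2 / (n : ℝ) ^ 2) * (n : ℝ) ^ 2 := by
      rw [hj]; push_cast; field_simp
    rw [e1, abs_mul, abs_of_nonneg (by positivity : (0 : ℝ) ≤ (n : ℝ) ^ 2)]
    calc |(m : ℝ) - L1 / n - L2 / (n : ℝ) ^ 2| * (n : ℝ) ^ 2 * z ≤ R / z ^ 3 * (n : ℝ) ^ 2 * z := by gcongr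
      _ = R / z ^ 3 * z ^ 2 * z := by rw [hz2]
      _ = R := by field_simp
  have hDB0 : 0 ≤ (D : ℝ) * B := by positivity
  have hR8 : R ≤ D * (C + 5 * A) * (h : ℝ) ^ 8 * z := by
    rw [hR]
    have e1 : (h : ℝ) ^ 9 = (h : ℝ) ^ 8 * h := by ring
    rw [e1]
    have : 0 ≤ (D : ℝ) * (C + 5 * A) * (h : ℝ) ^ 8 := by positivity
    nlinarith
  have hjb : |(j : ℝ)| * z ≤ (D * B + D * (C + 5 * A)) * (h : ℝ) ^ 8 := by
    have h1 : |(j : ℝ) * n| ≤ |(j : ℝ) * n - L2| + |(L2 : ℝ)| := by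
      have := abs_add_le ((j : ℝ) * n - L2) (L2 : ℝ)
      rwa [sub_add_cancel] at this
    rw [abs_mul, ← hzd] at h1
    have h2 : |(j : ℝ) * n - L2| ≤ D * (C + 5 * A) * (h : ℝ) ^ 8 := by
      have h3 := hjn.trans hR8
      exact le_of_mul_le_mul_right h3 hnpos
    linarith
  have hmb : |(m : ℝ)| * z ≤ (2 * (D * B) + D * (C + 5 * A)) * (h : ℝ) ^ 7 := by
    have h1 : |(m : ℝ)| * z = |(L1 : ℝ) + j| := by
      rw [hzd, ← abs_mul]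
      congr 1
      rw [hj]; push_cast; ring
    rw [h1]
    refine (abs_add_le _ _).trans ?_
    have h2 : |(j : ℝ)| ≤ (D * B + D * (C + 5 * A)) * (h : ℝ) ^ 7 := by
      have h3 : |(j : ℝ)| * z ≤ ((D * B + D * (C + 5 * A)) * (h : ℝ) ^ 7) * z := by
        refine hjb.trans ?_
        have e1 : (h : ℝ) ^ 8 = (h : ℝ) ^ 7 * h := by ring
        rw [e1]
        have : 0 ≤ ((D : ℝ) * B + D * (C + 5 * A)) * (h : ℝ) ^ 7 := by positivity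
        nlinarith
      exact le_of_mul_le_mul_right h3 hnpos
    linarith
  refine ⟨m, j, L1, L2, ?_, ?_, by rw [hj]; ring, ?_, ?_, ?_⟩
  · rw [hL1, ← hzf 7]; rfl
  · rw [hL2, ← hzf 8]; rfl
  · refine hmb.trans ?_
    gcongr
    linarith
  · refine hjb.trans ?_
    gcongr
    linarith
  · refine hjn.trans ?_
    rw [hR]
    gcongr
    linarith

end T9h23.Ad
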