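import Pool.Agent.T9h23.Ad.D3

/-! # Quartics: the dependence on the constant coefficient -/

set_option autoImplicit false

namespace T9h23.Ad

open Finset Polynomial T9h23.Ru T9h23.Ab T9h23.Pe
open scoped Classical

theorem coeff_pow_q (P : ℤ[X]) (hP : P.coeff 0 = 0) (q : ℤ) (i k : ℕ) (hk1 : 4 ≤ k) (hk : k ≤ 8) :
    ((P + C q * X ^ 4) ^ (i + 1)).coeff k = (P ^ (i + 1)).coeff k +
      ((i + 1 : ℕ) : ℤ) * (q * (P ^ i).coeff (k - 4)) + (if i = 1 ∧ k = 8 then q ^ 2 else 0) := by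
  obtain ⟨R, hR⟩ : ∃ R : ℤ[X], R = C q * X ^ 4 := ⟨_, rfl⟩
  have hXR : X ∣ R := by
    rw [hR]
    exact Dvd.dvd.mul_left (dvd_pow_self X (by norm_num)) _
  rw [← hR]
  obtain ⟨W, hW, hW0⟩ := pow_exp P R (X_dvd_iff.2 hP) hXR i
  rw [hW, coeff_add, coeff_add]
  congr 1
  · congr 1
    rw [mul_assoc]
    have h1 : (((i + 1 : ℕ) : ℤ[X]) * (P ^ i * R)).coeff k = ((i + 1 : ℕ) : ℤ) * (P ^ i * R).coeff k := by
      rw [← C_eq_natCast, coeff_C_mul]
    rw [h1]
    congr 1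
    rw [hR]
    have h3 : P ^ i * (C q * X ^ 4) = C q * (P ^ i * X ^ 4) := by ring
    rw [h3, coeff_C_mul, coeff_mul_X_pow', if_pos hk1]
  · have h4 : W * R ^ 2 = X ^ 8 * (W * (C q) ^ 2) := by
      rw [hR]; ring
    rw [h4, coeff_X_pow_mul']
    rcases Nat.lt_or_ge k 8 with h | h
    · rw [if_neg (by omega), if_neg (by omega)]
    · have h5 : k = 8 := by omega
      rw [if_pos h, h5, Nat.sub_self, mul_coeff_zero, hW0]
      have h6 : ((C q : ℤ[X]) ^ 2).coeff 0 = q ^ 2 := by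
        rw [← C_pow, coeff_C_zero]
      rw [h6]
      by_cases h7 : i = 1
      · rw [if_pos h7, if_pos ⟨h7, rfl⟩, one_mul]
      · rw [if_neg h7, if_neg (fun hh => h7 hh.1), zero_mul]

theorem cf_q (J : ℕ) (hJ : 3 ≤ J) (P : ℤ[X]) (hP : P.coeff 0 = 0) (q : ℤ) (k : ℕ) (hk1 : 4 ≤ k) (hk : k ≤ 8) :
    cf (3 / 2) J (P + C q * X ^ 4) k = cf (3 / 2) J P k + q * lin (3 / 2) J P (k - 4) +
      (if k = 8 then bc (3 / 2) 2 * (q : ℚ) ^ 2 else 0) := by
  obtain ⟨J', rfl⟩ : ∃ J', J = J' + 1 := ⟨J - 1, by omega⟩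
  unfold cf lin
  rw [Nat.add_sub_cancel, Finset.sum_range_succ', Finset.sum_range_succ']
  have h1 : ∀ i ∈ range J', bc (3 / 2) (i + 1) *
      ((((P + C q * X ^ 4) ^ (i + 1)).coeff k : ℤ) : ℚ) =
      bc (3 / 2) (i + 1) * ((P ^ (i + 1)).coeff k : ℚ) +
      q * (bc (3 / 2) (i + 1) * ((i + 1 : ℕ) : ℚ) * ((P ^ i).coeff (k - 4) : ℚ)) +
      (if i = 1 then (if k = 8 then bc (3 / 2) 2 * (q : ℚ) ^ 2 else 0) else 0) := by
    intro i _
    rw [coeff_pow_q P hP q i k hk1 hk]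
    by_cases h2 : i = 1
    · subst h2
      by_cases h3 : k = 8
      · rw [if_pos ⟨rfl, h3⟩, if_pos rfl, if_pos h3]
        push_cast
        ring
      · rw [if_neg (fun hh => h3 hh.2), if_pos rfl, if_neg h3]
        push_cast
        ring
    · rw [if_neg (fun hh => h2 hh.1), if_neg h2]
      push_cast
      ring
  rw [Finset.sum_congr rfl h1, Finset.sum_add_distrib, Finset.sum_add_distrib,
    ← Finset.mul_sum, Finset.sum_ite_eq' (range J') 1, if_pos (mem_range.2 (by omega))]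
  simp only [pow_zero]
  ring

/-- the linear coefficients -/
noncomputable def b7 (a : Fin 4 → ℤ) : ℚ := lin (3 / 2) 9 (pol a) 3
noncomputable def b8 (a : Fin 4 → ℤ) : ℚ := lin (3 / 2) 9 (pol a) 4

theorem pol_upd (a b : Fin 4 → ℤ) (hab : ∀ i, i ≠ 0 → b i = a i) : pol b = pol a + C (b 0 - a 0) * X ^ 4 := by
  have hb : b = pert a 0 (b 0 - a 0) := by
    funext i
    unfold pert
    by_cases hi : i = 0
    · subst hi
      simp
    · have hi0 : (i : ℕ) ≠ 0 := fun h => hi (Fin.ext h)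
      rw [hab i hi, if_neg hi0]
      split_ifs <;> ring
  have h1 := pol_pert (by norm_num : 2 ≤ 4) a 0 (b 0 - a 0)
  rw [← hb] at h1
  rw [h1, map_zero, zero_mul, zero_add]

theorem c7_upd (a b : Fin 4 → ℤ) (hab : ∀ i, i ≠ 0 → b i = a i) : c7 b = c7 a + ((b 0 : ℚ) - a 0) * b7 a := by
  unfold c7 b7
  rw [pol_upd a b hab, cf_q 9 (by norm_num) (pol a) (coeff_pol_zero a) _ 7 (by norm_num) (by norm_num),
    if_neg (by norm_num)]
  push_cast
  ring

theorem c8_upd (a b : Fin 4 → ℤ) (hab : ∀ i, i ≠ 0 → b i = a i) :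
    c8 b = c8 a + ((b 0 : ℚ) - a 0) * b8 a + 3 / 8 * ((b 0 : ℚ) - a 0) ^ 2 := by
  unfold c8 b8
  rw [pol_upd a b hab, cf_q 9 (by norm_num) (pol a) (coeff_pol_zero a) _ 8 (by norm_num) (by norm_num),
    if_pos rfl, bc_two]
  push_cast
  ring

theorem b7_sub (a b : Fin 4 → ℤ) (hab : ∀ i, i ≠ 1 → a i = b i) : b7 a - b7 b = 3 / 4 * ((a 1 : ℚ) - b 1) := by
  have hdvd : X ^ 3 ∣ pol a - pol b := by
    rw [X_pow_dvd_iff]
    intro k hk2
    rw [coeff_sub, coeff_pol, coeff_pol, ← Finset.sum_sub_distrib]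
    refine Finset.sum_eq_zero fun i _ => ?_
    split_ifs with h1
    · rw [hab i, sub_self]
      rintro rfl
      have : ((1 : Fin 4) : ℕ) = 1 := rfl
      omega
    · simp
  unfold b7 lin
  rw [← Finset.sum_sub_distrib, Finset.sum_eq_single 1]
  · rw [pow_one, pow_one]
    have e1 := coeff_pol_self a 1
    have e2 := coeff_pol_self b 1
    have hk : 4 - ((1 : Fin 4) : ℕ) = 3 := rfl
    rw [hk] at e1 e2
    rw [e1, e2]
    have h2 : bc (3 / 2) (1 + 1) = 3 / 8 := bc_two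
    rw [h2]
    push_cast
    ring
  · intro j hj hj1
    rcases Nat.lt_or_ge j 2 with h | h
    · have h0 : j = 0 := by omega
      subst h0
      simp
    · have h2 := pow_sub_dvd (pol a) (pol b) 3 (coeff_pol_zero a) (coeff_pol_zero b) hdvd j h
      rw [X_pow_dvd_iff] at h2
      have h3 := h2 3 (by omega)
      rw [coeff_sub] at h3
      have h4 : (pol a ^ j).coeff 3 = (pol b ^ j).coeff 3 := by omega
      rw [h4, sub_self]
  · intro h
    exact absurd (mem_range.2 (by omega)) h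

/-- denominators -/
theorem b7_den : ∃ D : ℕ, 1 ≤ D ∧ ∀ a : Fin 4 → ℤ, b7 a ≠ 0 → 1 ≤ (D : ℝ) * |(b7 a : ℝ)| := by
  obtain ⟨D, hD, hden⟩ := den (3 / 2) 10
  refine ⟨D, hD, ?_⟩
  intro a ha
  have hz : ∃ z : ℤ, (D : ℚ) * b7 a = z := by
    have h1 : ∀ i ∈ range (9 - 1), ∃ z : ℤ,
        (D : ℚ) * (bc (3 / 2) (i + 1) * ((i + 1 : ℕ) : ℚ) * (((pol a) ^ i).coeff 3 : ℚ)) = z := by
      intro i hi
      rw [mem_range] at hi
      obtain ⟨z, hz⟩ := hden (i + 1) (mem_range.2 (by omega))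
      refine ⟨z * ((i + 1 : ℕ) : ℤ) * ((pol a) ^ i).coeff 3, ?_⟩
      push_cast
      rw [← hz]
      ring
    choose! z hz using h1
    refine ⟨∑ i ∈ range (9 - 1), z i, ?_⟩
    unfold b7 lin
    rw [Finset.mul_sum, Int.cast_sum]
    exact Finset.sum_congr rfl hz
  obtain ⟨z, hz⟩ := hz
  have hz0 : z ≠ 0 := by
    rintro rfl
    rw [Int.cast_zero] at hz
    rcases mul_eq_zero.1 hz with h1 | h1
    · have : (D : ℚ) ≠ 0 := by positivity
      exact this h1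
    · exact ha h1
  have h2 : (D : ℝ) * |(b7 a : ℝ)| = |(z : ℝ)| := by
    have h3 : (D : ℝ) * (b7 a : ℝ) = z := by
      have := congrArg (fun q : ℚ => (q : ℝ)) hz
      push_cast at this
      exact this
    rw [← h3, abs_mul, abs_of_nonneg (Nat.cast_nonneg D : (0 : ℝ) ≤ D)]
  rw [h2]
  exact_mod_cast Int.one_le_abs hz0

/-- **Few quartics with a small coefficient of index `7`.** -/
theorem few7 : ∃ D : ℝ, 1 ≤ D ∧ ∀ h : ℕ, 1 ≤ h → ∀ R : ℝ, 1 ≤ R →
    (((wbox 4 h).filter (fun a => |(c7 a : ℝ)| < R)).card : ℝ) ≤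
      (wbox 4 h).card * (((h : ℝ) ^ 3)⁻¹ + D * R * ((h : ℝ) ^ 4)⁻¹) := by
  obtain ⟨D, hD, hden⟩ := b7_den
  have hDr : (1 : ℝ) ≤ D := by exact_mod_cast hD
  refine ⟨3 * D, by linarith, ?_⟩
  intro h hh R hR
  have hhr : (1 : ℝ) ≤ h := by exact_mod_cast hh
  obtain ⟨W, hW⟩ : ∃ W : ℝ, W = ((wbox 4 h).card : ℝ) := ⟨_, rfl⟩
  have hW0 : 0 ≤ W := by rw [hW]; positivity
  set S1 := (wbox 4 h).filter (fun a => b7 a = 0) with hS1
  set S2 := (wbox 4 h).filter (fun a => |(c7 a : ℝ)| < R ∧ b7 a ≠ 0) with hS2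
  have hsub : (wbox 4 h).filter (fun a => |(c7 a : ℝ)| < R) ⊆ S1 ∪ S2 := by
    intro a ha
    rw [mem_filter] at ha
    rw [mem_union, hS1, hS2, mem_filter, mem_filter]
    by_cases h0 : b7 a = 0
    · left; exact ⟨ha.1, h0⟩
    · right; exact ⟨ha.1, ha.2, h0⟩
  have b1 : (S1.card : ℝ) ≤ W * ((h : ℝ) ^ 3)⁻¹ := by
    have h1 := fibre (fun i : Fin 4 => h ^ (4 - (i : ℕ))) S1 (Finset.filter_subset _ _) 1 1 (by
      intro a _
      rw [Finset.card_le_one]
      intro b hb c hc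
      rw [mem_filter, hS1, mem_filter] at hb hc
      have h2 := b7_sub b c (fun i hi => by rw [hb.2 i hi, hc.2 i hi])
      rw [hb.1.2, hc.1.2, sub_zero] at h2
      have h3 : (b 1 : ℚ) = c 1 := by linarith
      have h4 : b 1 = c 1 := by exact_mod_cast h3
      funext i
      by_cases hi : i = 1
      · rw [hi]; exact h4
      · rw [hb.2 i hi, hc.2 i hi])
    have h2 : (S1.card : ℝ) * (2 * (h : ℝ) ^ 3 + 1) ≤ W := by
      have h3 : S1.card * (2 * h ^ 3 + 1) ≤ 1 * (wbox 4 h).card := h1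
      rw [one_mul] at h3
      rw [hW]
      exact_mod_cast h3
    rw [← div_eq_mul_inv, le_div_iff₀ (by positivity)]
    refine le_trans ?_ h2
    have h3 : 0 ≤ (S1.card : ℝ) := by positivity
    have h4 : 0 < (h : ℝ) ^ 3 := by positivity
    apply mul_le_mul_of_nonneg_left _ h3
    linarith
  have b2 : (S2.card : ℝ) ≤ W * (3 * D * R * ((h : ℝ) ^ 4)⁻¹) := by
    have h1 := fibre (fun i : Fin 4 => h ^ (4 - (i : ℕ))) S2 (Finset.filter_subset _ _) 0
      ⌊2 * (R * D) + 1⌋₊ (by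
      intro a _
      apply Nat.le_floor
      set F := S2.filter (fun b => ∀ i, i ≠ 0 → b i = a i) with hF
      rcases F.eq_empty_or_nonempty with he | ⟨b₀, hb₀⟩
      · rw [he, card_empty, Nat.cast_zero]
        positivity
      have hinj : Set.InjOn (fun b : Fin 4 → ℤ => b 0) (F : Set (Fin 4 → ℤ)) := by
        intro b hb c hc hbc
        rw [Finset.mem_coe, hF, mem_filter] at hb hc
        funext i
        by_cases hi : i = 0
        · rw [hi]; exact hbc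
        · rw [hb.2 i hi, hc.2 i hi]
      rw [← Finset.card_image_of_injOn hinj]
      rw [hF, mem_filter, hS2, mem_filter] at hb₀
      obtain ⟨⟨hb0, hlam0, hbe0⟩, hfib0⟩ := hb₀
      have hbe1 := hden b₀ hbe0
      have hbe2 : (b7 b₀ : ℝ) ≠ 0 := by exact_mod_cast hbe0
      have hbe3 : 0 < |(b7 b₀ : ℝ)| := abs_pos.2 hbe2
      refine card_near (F.image (fun b : Fin 4 → ℤ => b 0))
        ((b₀ 0 : ℝ) - (c7 b₀ : ℝ) / (b7 b₀ : ℝ)) (R * D) (by positivity) ?_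
      intro x hx
      rw [mem_image] at hx
      obtain ⟨b, hb, rfl⟩ := hx
      rw [hF, mem_filter, hS2, mem_filter] at hb
      have h3 := c7_upd b₀ b (fun i hi => by rw [hb.2 i hi, hfib0 i hi])
      have h4 : (c7 b : ℝ) = (c7 b₀ : ℝ) + ((b 0 : ℝ) - b₀ 0) * (b7 b₀ : ℝ) := by
        have h7 := congrArg (fun q : ℚ => (q : ℝ)) h3
        push_cast at h7
        exact h7
      have h5 : (b 0 : ℝ) - ((b₀ 0 : ℝ) - (c7 b₀ : ℝ) / (b7 b₀ : ℝ)) =
          (c7 b : ℝ) / (b7 b₀ : ℝ) := by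
        rw [h4]
        field_simp
        ring
      rw [h5, abs_div, div_lt_iff₀ hbe3]
      calc |(c7 b : ℝ)| < R := hb.1.2.1
        _ = R * 1 := (mul_one R).symm
        _ ≤ R * (D * |(b7 b₀ : ℝ)|) := by gcongr
        _ = _ := by ring)
    have h2 : (S2.card : ℝ) * (2 * (h : ℝ) ^ 4 + 1) ≤ (2 * (R * D) + 1) * W := by
      have h3 : S2.card * (2 * h ^ 4 + 1) ≤ ⌊2 * (R * D) + 1⌋₊ * (wbox 4 h).card := h1
      have h4 : (S2.card : ℝ) * (2 * (h : ℝ) ^ 4 + 1) ≤ (⌊2 * (R * D) + 1⌋₊ : ℝ) * W := by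
        rw [hW]
        exact_mod_cast h3
      refine h4.trans ?_
      gcongr
      exact Nat.floor_le (by positivity)
    have h5 : W * (3 * D * R * ((h : ℝ) ^ 4)⁻¹) = W * (3 * D * R) / (h : ℝ) ^ 4 := by
      rw [div_eq_mul_inv]; ring
    rw [h5, le_div_iff₀ (by positivity)]
    have h3 : 0 ≤ (S2.card : ℝ) := by positivity
    have h4 : 0 < (h : ℝ) ^ 4 := by positivity
    have h6 : 1 ≤ R * D := by nlinarith
    calc (S2.card : ℝ) * (h : ℝ) ^ 4 ≤ (S2.card : ℝ) * (2 * (h : ℝ) ^ 4 + 1) := by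
          apply mul_le_mul_of_nonneg_left _ h3
          linarith
      _ ≤ (2 * (R * D) + 1) * W := h2
      _ ≤ (3 * (R * D)) * W := by
          apply mul_le_mul_of_nonneg_right _ hW0
          linarith
      _ = _ := by ring
  have h1 := (Finset.card_le_card hsub).trans (Finset.card_union_le _ _)
  have h2 : (((wbox 4 h).filter (fun a => |(c7 a : ℝ)| < R)).card : ℝ) ≤ (S1.card : ℝ) + (S2.card : ℝ) := by
    exact_mod_cast h1
  rw [← hW, mul_add]
  linarith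

end T9h23.Ad
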