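import Pool.Agent.T9h23.Ad.D4
import Pool.Agent.T9h23.Ab.A7

/-! # Quartics: all large arguments -/

set_option autoImplicit false

namespace T9h23.Ad

open Finset T9h23.Ru T9h23.Ab
open scoped Classical

/-- one pair `(m, j)` with `m ≠ 0` -/
theorem one_pair (D : ℕ) (hD : 1 ≤ D) (h k : ℕ) (hh : 1 ≤ h) (m j : ℤ) (hm : m ≠ 0) :
    (((wbox 4 h).filter (fun a => |(m : ℝ) * (D * (c8 a : ℝ)) - j * (D * (c7 a : ℝ)) - (j : ℝ) ^ 2| <
      (k : ℝ) ^ 2)).card : ℝ) ≤ (wbox 4 h).card * (6 * k * ((h : ℝ) ^ 4)⁻¹) := by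
  have hhr : (1 : ℝ) ≤ h := by exact_mod_cast hh
  set S := (wbox 4 h).filter (fun a => |(m : ℝ) * (D * (c8 a : ℝ)) - j * (D * (c7 a : ℝ)) - (j : ℝ) ^ 2| <
      (k : ℝ) ^ 2) with hS
  have h1 := fibre (fun i : Fin 4 => h ^ (4 - (i : ℕ))) S (Finset.filter_subset _ _) 0 (6 * k) (by
    intro a _
    set F := S.filter (fun b => ∀ i, i ≠ 0 → b i = a i) with hF
    rcases F.eq_empty_or_nonempty with he | ⟨b₀, hb₀⟩
    · rw [he, card_empty]; omega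
    have hinj : Set.InjOn (fun b : Fin 4 → ℤ => b 0 - b₀ 0) (F : Set (Fin 4 → ℤ)) := by
      intro b hb c hc hbc
      rw [Finset.mem_coe, hF, mem_filter] at hb hc
      have hbc' : b 0 - b₀ 0 = c 0 - b₀ 0 := hbc
      funext i
      by_cases hi : i = 0
      · rw [hi]; omega
      · rw [hb.2 i hi, hc.2 i hi]
    rw [← Finset.card_image_of_injOn hinj]
    rw [hF, mem_filter] at hb₀
    obtain ⟨_, hfib0⟩ := hb₀
    refine quad_count k _ ((b8 b₀ : ℝ) - j * (b7 b₀ : ℝ) / m)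
      ((c8 b₀ : ℝ) - j * (c7 b₀ : ℝ) / m - (j : ℝ) ^ 2 / (m * D)) ?_
    intro x hx
    rw [mem_image] at hx
    obtain ⟨b, hb, rfl⟩ := hx
    rw [hF, mem_filter, hS, mem_filter] at hb
    obtain ⟨⟨_, hlt⟩, hfib⟩ := hb
    have e7 := c7_upd b₀ b (fun i hi => by rw [hfib i hi, hfib0 i hi])
    have e8 := c8_upd b₀ b (fun i hi => by rw [hfib i hi, hfib0 i hi])
    have e7' : (c7 b : ℝ) = (c7 b₀ : ℝ) + ((b 0 : ℝ) - b₀ 0) * (b7 b₀ : ℝ) := by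
      have h7 := congrArg (fun q : ℚ => (q : ℝ)) e7
      push_cast at h7
      exact h7
    have e8' : (c8 b : ℝ) = (c8 b₀ : ℝ) + ((b 0 : ℝ) - b₀ 0) * (b8 b₀ : ℝ) +
        3 / 8 * ((b 0 : ℝ) - b₀ 0) ^ 2 := by
      have h7 := congrArg (fun q : ℚ => (q : ℝ)) e8
      push_cast at h7
      exact h7
    have hmr : (1 : ℝ) ≤ |(m : ℝ)| := by exact_mod_cast Int.one_le_abs hm
    have hm0 : (m : ℝ) ≠ 0 := by exact_mod_cast hm
    have hDr : (1 : ℝ) ≤ D := by exact_mod_cast hD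
    have hD0 : (D : ℝ) ≠ 0 := by positivity
    have e : ((c8 b₀ : ℝ) - j * (c7 b₀ : ℝ) / m - (j : ℝ) ^ 2 / (m * D)) +
        ((b8 b₀ : ℝ) - j * (b7 b₀ : ℝ) / m) * ((b 0 - b₀ 0 : ℤ) : ℝ) + 3 / 8 * ((b 0 - b₀ 0 : ℤ) : ℝ) ^ 2 =
        ((m : ℝ) * (D * (c8 b : ℝ)) - j * (D * (c7 b : ℝ)) - (j : ℝ) ^ 2) / (m * D) := by
      rw [e7', e8']
      push_cast
      field_simp
      ring
    have hmD : 1 ≤ |(m : ℝ)| * D := by nlinarith
    rw [e, abs_div, abs_mul, abs_of_nonneg (by positivity : (0 : ℝ) ≤ D), div_lt_iff₀ (by linarith)]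
    have hk0 : 0 ≤ (k : ℝ) ^ 2 := by positivity
    nlinarith)
  have h3 : S.card * (2 * h ^ 4 + 1) ≤ 6 * k * (wbox 4 h).card := h1
  have h4 : (S.card : ℝ) * (2 * (h : ℝ) ^ 4 + 1) ≤ 6 * k * ((wbox 4 h).card : ℝ) := by exact_mod_cast h3
  have h5 : ((wbox 4 h).card : ℝ) * (6 * k * ((h : ℝ) ^ 4)⁻¹) = 6 * k * ((wbox 4 h).card : ℝ) / (h : ℝ) ^ 4 := by
    rw [div_eq_mul_inv]; ring
  rw [h5, le_div_iff₀ (by positivity)]
  refine le_trans ?_ h4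
  have h6 : 0 ≤ (S.card : ℝ) := by positivity
  have h7 : 0 < (h : ℝ) ^ 4 := by positivity
  apply mul_le_mul_of_nonneg_left _ h6
  linarith

theorem card_sym (x : ℝ) (hx : 1 ≤ x) : ((Icc (-⌊x⌋) ⌊x⌋).card : ℝ) ≤ 3 * x := by
  have h0 : 0 ≤ ⌊x⌋ := Int.floor_nonneg.2 (by linarith)
  rw [Int.card_Icc]
  have h1 : (((⌊x⌋ + 1 - -⌊x⌋).toNat : ℤ) : ℝ) = ((2 * ⌊x⌋ + 1 : ℤ) : ℝ) := by
    congr 1
    omega
  rw [Int.cast_natCast] at h1
  rw [h1]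
  push_cast
  have := Int.floor_le x
  linarith

/-- **All large arguments.** -/
theorem large4 (A : ℕ) (hA : 1 ≤ A) : ∃ K : ℝ, 0 < K ∧ ∀ h : ℕ, 1 ≤ h →
    (((wbox 4 h).filter (fun a => ∃ n : ℤ, (h : ℤ) ^ 13 ≤ n ^ 2 ∧ ∃ y : ℤ,
      (y ^ 2 - (mv a n) ^ 3) ^ 2 ≤ A * |mv a n|)).card : ℝ) ≤
      (wbox 4 h).card * (K * (Real.sqrt h)⁻¹) := by
  obtain ⟨D, hD, C, hC, hnear⟩ := near4 A hA
  obtain ⟨D', hD', hfew⟩ := few7
  have hDr : (1 : ℝ) ≤ D := by exact_mod_cast hD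
  refine ⟨C + 200 * C ^ 3 + (1 + 2 * D' * C), by positivity, ?_⟩
  intro h hh
  have hhr : (1 : ℝ) ≤ h := by exact_mod_cast hh
  obtain ⟨t, ht⟩ : ∃ t : ℝ, t = Real.sqrt h := ⟨_, rfl⟩
  have ht2 : t ^ 2 = h := by rw [ht]; exact Real.sq_sqrt (by linarith)
  have ht1 : 1 ≤ t := by rw [ht]; exact Real.one_le_sqrt.2 hhr
  have ht0 : 0 < t := by linarith
  obtain ⟨W, hW⟩ : ∃ W : ℝ, W = ((wbox 4 h).card : ℝ) := ⟨_, rfl⟩
  have hW0 : 0 ≤ W := by rw [hW]; positivity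
  have hDC : 0 ≤ 2 * D' * C := by positivity
  have hC3 : 0 ≤ 200 * C ^ 3 := by positivity
  set S := (wbox 4 h).filter (fun a => ∃ n : ℤ, (h : ℤ) ^ 13 ≤ n ^ 2 ∧ ∃ y : ℤ,
      (y ^ 2 - (mv a n) ^ 3) ^ 2 ≤ A * |mv a n|) with hS
  rw [← ht, ← hW]
  by_cases hCt : t ^ 11 < C
  · have h1 : (S.card : ℝ) ≤ W := by
      rw [hW]
      exact_mod_cast Finset.card_filter_le _ _
    have h2 : t ≤ t ^ 11 := le_self_pow₀ ht1 (by norm_num)
    have h3 : 1 ≤ (C + 200 * C ^ 3 + (1 + 2 * D' * C)) * t⁻¹ := by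
      rw [← div_eq_mul_inv, le_div_iff₀ ht0]
      linarith
    nlinarith
  rw [not_lt] at hCt
  obtain ⟨k, hk⟩ : ∃ k : ℕ, k = ⌊C * t ^ 3⌋₊ + 1 := ⟨_, rfl⟩
  have hCt3 : 1 ≤ C * t ^ 3 := by
    have : (1 : ℝ) ≤ t ^ 3 := one_le_pow₀ ht1
    nlinarith
  have hCt1 : 1 ≤ C * t := by nlinarith
  have hk1 : C * t ^ 3 < k := by
    rw [hk]
    push_cast
    exact Nat.lt_floor_add_one _
  have hk2 : (k : ℝ) ≤ 2 * (C * t ^ 3) := by
    rw [hk]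
    push_cast
    have := Nat.floor_le (show 0 ≤ C * t ^ 3 by linarith)
    linarith
  set P := ((Icc (-⌊C * t⌋) ⌊C * t⌋) ×ˢ (Icc (-⌊C * t ^ 3⌋) ⌊C * t ^ 3⌋)).filter (fun p => p.1 ≠ 0) with hP
  set G : ℤ × ℤ → Finset (Fin 4 → ℤ) := fun p => (wbox 4 h).filter (fun a =>
    |(p.1 : ℝ) * (D * (c8 a : ℝ)) - p.2 * (D * (c7 a : ℝ)) - (p.2 : ℝ) ^ 2| < (k : ℝ) ^ 2) with hG
  set S0 := (wbox 4 h).filter (fun a => |(c7 a : ℝ)| < 2 * (C * t ^ 3)) with hS0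
  have hsub : S ⊆ P.biUnion G ∪ S0 := by
    intro a ha
    rw [hS, mem_filter] at ha
    obtain ⟨ha1, n, hn, y, hy⟩ := ha
    obtain ⟨z, hz⟩ : ∃ z : ℝ, z = |(n : ℝ)| := ⟨_, rfl⟩
    have hz0 : 0 ≤ z := by rw [hz]; exact abs_nonneg _
    have hzt : t ^ 13 ≤ z := by
      have h1 : (h : ℝ) ^ 13 ≤ (n : ℝ) ^ 2 := by exact_mod_cast hn
      have h2 : (t ^ 13) ^ 2 ≤ z ^ 2 := by
        have e1 : (t ^ 13) ^ 2 = (h : ℝ) ^ 13 := by rw [← ht2]; ring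
        rw [e1, hz, sq_abs]
        exact h1
      exact le_of_sq_le_sq h2 hz0
    have hzpos : 0 < z := lt_of_lt_of_le (by positivity) hzt
    have hCh : C * h ≤ |(n : ℝ)| := by
      rw [← hz]
      refine le_trans ?_ hzt
      rw [← ht2]
      have e1 : t ^ 13 = t ^ 11 * t ^ 2 := by ring
      rw [e1]
      gcongr
    obtain ⟨m, j, L1, L2, hL1, hL2, hmn, hmb, hjb, hjn⟩ := hnear h hh a (mem_wbox.1 ha1) n hCh y hy
    rw [← hz] at hmb hjb hjn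
    have hL1r : (L1 : ℝ) = D * (c7 a : ℝ) := by
      have h7 := congrArg (fun q : ℚ => (q : ℝ)) hL1
      push_cast at h7
      exact h7
    have hL2r : (L2 : ℝ) = D * (c8 a : ℝ) := by
      have h7 := congrArg (fun q : ℚ => (q : ℝ)) hL2
      push_cast at h7
      exact h7
    have hm1 : |(m : ℝ)| ≤ C * t := by
      have h1 : |(m : ℝ)| * z ≤ (C * t) * z := by
        refine hmb.trans ?_
        have e1 : C * (h : ℝ) ^ 7 = (C * t) * t ^ 13 := by rw [← ht2]; ring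
        rw [e1]
        gcongr
      exact le_of_mul_le_mul_right h1 hzpos
    have hj1 : |(j : ℝ)| ≤ C * t ^ 3 := by
      have h1 : |(j : ℝ)| * z ≤ (C * t ^ 3) * z := by
        refine hjb.trans ?_
        have e1 : C * (h : ℝ) ^ 8 = (C * t ^ 3) * t ^ 13 := by rw [← ht2]; ring
        rw [e1]
        gcongr
      exact le_of_mul_le_mul_right h1 hzpos
    rw [mem_union]
    by_cases hm : m = 0
    · right
      rw [hS0, mem_filter]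
      refine ⟨ha1, ?_⟩
      have h1 : (L1 : ℤ) = -j := by
        rw [hm, zero_mul] at hmn
        omega
      have h2 : |(D : ℝ) * (c7 a : ℝ)| ≤ C * t ^ 3 := by
        rw [← hL1r, h1]
        push_cast
        rw [abs_neg]
        exact hj1
      rw [abs_mul, abs_of_nonneg (by positivity : (0 : ℝ) ≤ D)] at h2
      have h3 : |(c7 a : ℝ)| ≤ D * |(c7 a : ℝ)| := le_mul_of_one_le_left (abs_nonneg _) hDr
      linarith
    · left
      rw [mem_biUnion]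
      refine ⟨(m, j), ?_, ?_⟩
      · rw [hP, mem_filter, mem_product, mem_Icc, mem_Icc, ← abs_le, ← abs_le]
        refine ⟨⟨?_, ?_⟩, hm⟩
        · rw [Int.le_floor]; push_cast; exact hm1
        · rw [Int.le_floor]; push_cast; exact hj1
      · rw [hG]
        dsimp only
        rw [mem_filter]
        refine ⟨ha1, ?_⟩
        rw [← hL1r, ← hL2r]
        have hmn' : (m : ℝ) * n = L1 + j := by exact_mod_cast hmn
        have e1 : (m : ℝ) * L2 - j * L1 - (j : ℝ) ^ 2 = -(m * (j * n - L2)) := by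
          have : (L1 : ℝ) = m * n - j := by linarith
          rw [this]; ring
        rw [e1, abs_neg, abs_mul]
        have h1 : |(m : ℝ)| * |(j : ℝ) * n - L2| ≤ (C * t ^ 3) ^ 2 := by
          have h2 : (|(m : ℝ)| * |(j : ℝ) * n - L2|) * z ^ 2 ≤ (C * t ^ 3) ^ 2 * z ^ 2 := by
            calc (|(m : ℝ)| * |(j : ℝ) * n - L2|) * z ^ 2 = (|(m : ℝ)| * z) * (|(j : ℝ) * n - L2| * z) := by ring
              _ ≤ (C * (h : ℝ) ^ 7) * (C * (h : ℝ) ^ 9) := by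
                  apply mul_le_mul hmb hjn (by positivity) (by positivity)
              _ = (C * t ^ 3) ^ 2 * (t ^ 13) ^ 2 := by rw [← ht2]; ring
              _ ≤ (C * t ^ 3) ^ 2 * z ^ 2 := by gcongr
          exact le_of_mul_le_mul_right h2 (by positivity)
        refine lt_of_le_of_lt h1 ?_
        gcongr
  have hPc : (P.card : ℝ) ≤ 9 * C ^ 2 * t ^ 4 := by
    have h1 : (P.card : ℝ) ≤ ((Icc (-⌊C * t⌋) ⌊C * t⌋).card : ℝ) * ((Icc (-⌊C * t ^ 3⌋) ⌊C * t ^ 3⌋).card : ℝ) := by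
      have h2 : P.card ≤ ((Icc (-⌊C * t⌋) ⌊C * t⌋) ×ˢ (Icc (-⌊C * t ^ 3⌋) ⌊C * t ^ 3⌋)).card :=
        Finset.card_filter_le _ _
      rw [card_product] at h2
      exact_mod_cast h2
    refine h1.trans ?_
    have h2 := card_sym (C * t) hCt1
    have h3 := card_sym (C * t ^ 3) hCt3
    calc _ ≤ (3 * (C * t)) * (3 * (C * t ^ 3)) := mul_le_mul h2 h3 (by positivity) (by positivity)
      _ = _ := by ring
  have hGc : ∀ p ∈ P, ((G p).card : ℝ) ≤ W * (12 * C * (t ^ 5)⁻¹) := by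
    intro p hp
    rw [hP, mem_filter] at hp
    have h1 := one_pair D hD h k hh p.1 p.2 hp.2
    rw [← hW] at h1
    refine h1.trans ?_
    apply mul_le_mul_of_nonneg_left _ hW0
    have e1 : ((h : ℝ) ^ 4)⁻¹ = (t ^ 3)⁻¹ * (t ^ 5)⁻¹ := by
      rw [← ht2, ← mul_inv]; congr 1; ring
    rw [e1]
    have h2 : (6 * (k : ℝ)) * (t ^ 3)⁻¹ ≤ 12 * C := by
      rw [← div_eq_mul_inv, div_le_iff₀ (by positivity)]
      linarith
    have h3 : 0 ≤ (t ^ 5)⁻¹ := by positivity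
    calc 6 * (k : ℝ) * ((t ^ 3)⁻¹ * (t ^ 5)⁻¹) = ((6 * (k : ℝ)) * (t ^ 3)⁻¹) * (t ^ 5)⁻¹ := by ring
      _ ≤ _ := by gcongr
  have hU : ((P.biUnion G).card : ℝ) ≤ W * (108 * C ^ 3 * t⁻¹) := by
    have h1 : ((P.biUnion G).card : ℝ) ≤ ∑ p ∈ P, ((G p).card : ℝ) := by exact_mod_cast Finset.card_biUnion_le
    refine h1.trans ((Finset.sum_le_card_nsmul P _ _ hGc).trans ?_)
    rw [nsmul_eq_mul]
    calc (P.card : ℝ) * (W * (12 * C * (t ^ 5)⁻¹)) ≤ (9 * C ^ 2 * t ^ 4) * (W * (12 * C * (t ^ 5)⁻¹)) := by gcongr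
      _ = W * (108 * C ^ 3 * (t ^ 4 * (t ^ 5)⁻¹)) := by ring
      _ = W * (108 * C ^ 3 * t⁻¹) := by
          have : t ^ 4 * (t ^ 5)⁻¹ = t⁻¹ := by field_simp
          rw [this]
  have hS0c : (S0.card : ℝ) ≤ W * ((1 + 2 * D' * C) * t⁻¹) := by
    have h1 := hfew h hh (2 * (C * t ^ 3)) (by linarith)
    rw [← hW] at h1
    refine h1.trans ?_
    apply mul_le_mul_of_nonneg_left _ hW0
    have e1 : ((h : ℝ) ^ 3)⁻¹ ≤ t⁻¹ := by
      rw [inv_le_inv₀ (by positivity) ht0, ← ht2, ← pow_mul]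
      exact le_self_pow₀ ht1 (by norm_num)
    have e2 : t ^ 3 * ((h : ℝ) ^ 4)⁻¹ ≤ t⁻¹ := by
      rw [← div_eq_mul_inv, inv_eq_one_div, div_le_div_iff₀ (by positivity) ht0, one_mul, ← ht2, ← pow_mul,
        ← pow_succ]
      exact pow_le_pow_right₀ ht1 (by norm_num)
    calc ((h : ℝ) ^ 3)⁻¹ + D' * (2 * (C * t ^ 3)) * ((h : ℝ) ^ 4)⁻¹
        = ((h : ℝ) ^ 3)⁻¹ + (2 * D' * C) * (t ^ 3 * ((h : ℝ) ^ 4)⁻¹) := by ring
      _ ≤ t⁻¹ + (2 * D' * C) * t⁻¹ := by gcongr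
      _ = _ := by ring
  have h1 := (Finset.card_le_card hsub).trans (Finset.card_union_le _ _)
  have h2 : (S.card : ℝ) ≤ ((P.biUnion G).card : ℝ) + (S0.card : ℝ) := by exact_mod_cast h1
  have h3 : 0 ≤ W * (C * t⁻¹) := by positivity
  have h4 : 0 ≤ W * (92 * C ^ 3 * t⁻¹) := by positivity
  calc (S.card : ℝ) ≤ W * (108 * C ^ 3 * t⁻¹) + W * ((1 + 2 * D' * C) * t⁻¹) := by linarith
    _ ≤ W * (108 * C ^ 3 * t⁻¹) + W * ((1 + 2 * D' * C) * t⁻¹) + (W * (C * t⁻¹) + W * (92 * C ^ 3 * t⁻¹)) := by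
        linarith
    _ = _ := by ring

end T9h23.Ad
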