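import Pool.Agent.T9h23.Ad.D5
import Pool.Agent.T9h23.Ad.D2

/-! # Quartics: the count -/

set_option autoImplicit false

namespace T9h23.Ad

open Finset T9h23.Ru T9h23.Ab
open scoped Classical

/-- the number of the exceptional abscissas -/
theorem countExc (A : ℕ) : ∃ K : ℝ, 0 < K ∧ ∀ X : ℝ, 1 ≤ X → ∀ U : Finset ℤ,
    (∀ x ∈ U, |(x : ℝ)| ≤ X ∧ Exc A x) → (U.card : ℝ) ≤ K * X ^ (1 / 3 + 1 / 624 : ℝ) := by
  obtain ⟨K, hK⟩ := Pool.Agent.Results.MP_e734ed_nt.WindowsWithoutExceptions.count_x (A : ℝ) 0 le_rfl (by norm_num)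
    (1 / 624) (by norm_num)
  refine ⟨|K| + 1, by positivity, ?_⟩
  intro X hX U hU
  obtain ⟨hfin, hcard⟩ := hK X hX
  have hch : ∀ x : ℤ, ∃ y : ℤ, x ∈ U → (x, y) ∈ {e : ℤ × ℤ |
      e ∈ Pool.Agent.Results.MP_e734ed_nt.WindowsWithoutExceptions.Exc (A : ℝ) 0 ∧ |((e.1 : ℤ) : ℝ)| ≤ X} := by
    intro x
    by_cases hx : x ∈ U
    · obtain ⟨h1, y, h2, h3⟩ := hU x hx
      refine ⟨y, fun _ => ⟨⟨h2, ?_⟩, h1⟩⟩
      have h4 : ((y : ℝ) ^ 2 - (x : ℝ) ^ 3) ^ 2 < A * |(x : ℝ)| := by exact_mod_cast h3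
      obtain ⟨s, hs⟩ : ∃ s : ℝ, s = |(x : ℝ)| ^ (1 / 2 - 0 : ℝ) := ⟨_, rfl⟩
      have hs0 : 0 ≤ s := by rw [hs]; positivity
      have hs2 : s ^ 2 = |(x : ℝ)| := by
        rw [hs, ← Real.rpow_natCast, ← Real.rpow_mul (abs_nonneg _)]
        norm_num
      change |(y : ℝ) ^ 2 - (x : ℝ) ^ 3| ≤ A * |(x : ℝ)| ^ (1 / 2 - 0 : ℝ)
      rw [← hs]
      have hA1 : (1 : ℝ) ≤ A := by
        have : 0 < A := by
          rcases Nat.eq_zero_or_pos A with h5 | h5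
          · rw [h5] at h4
            have := sq_nonneg ((y : ℝ) ^ 2 - (x : ℝ) ^ 3)
            simp only [Nat.cast_zero, zero_mul] at h4
            linarith
          · exact h5
        exact_mod_cast this
      apply abs_le_of_sq_le_sq _ (by positivity)
      rw [mul_pow, hs2]
      have h6 : (A : ℝ) ≤ (A : ℝ) ^ 2 := le_self_pow₀ hA1 (by norm_num)
      have h7 : 0 ≤ |(x : ℝ)| := abs_nonneg _
      nlinarith
    · exact ⟨0, fun h => absurd h hx⟩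
  choose g hg using hch
  have h2 : U.card ≤ {e : ℤ × ℤ |
      e ∈ Pool.Agent.Results.MP_e734ed_nt.WindowsWithoutExceptions.Exc (A : ℝ) 0 ∧ |((e.1 : ℤ) : ℝ)| ≤ X}.ncard := by
    rw [← Set.ncard_coe_finset]
    apply Set.ncard_le_ncard_of_injOn (fun x => (x, g x)) (ht := hfin)
    · intro x hx
      exact hg x hx
    · intro a _ b _ hab
      exact (Prod.ext_iff.1 hab).1
  have h3 : (1 / 3 - 0 / 6 + 1 / 624 : ℝ) = 1 / 3 + 1 / 624 := by ring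
  rw [h3] at hcard
  have h4 : 0 ≤ X ^ (1 / 3 + 1 / 624 : ℝ) := Real.rpow_nonneg (by linarith) _
  calc (U.card : ℝ) ≤ _ := by exact_mod_cast h2
    _ ≤ K * X ^ (1 / 3 + 1 / 624 : ℝ) := hcard
    _ ≤ (|K| + 1) * X ^ (1 / 3 + 1 / 624 : ℝ) := by
        apply mul_le_mul_of_nonneg_right _ h4
        have := le_abs_self K
        linarith

/-- **The count of the quartics with an exceptional value.** -/
theorem finalD (A : ℕ) (hA : 1 ≤ A) : ∃ K : ℝ, 0 < K ∧ ∀ H : ℕ, 1 ≤ H →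
    (((wbox 4 H).filter (fun a => ∃ n : ℤ, Exc A (mv a n))).card : ℝ) ≤
      (wbox 4 H).card * (K * ((H : ℝ) ^ (1 / 4 : ℝ))⁻¹) := by
  obtain ⟨K₁, hK₁, hcount⟩ := countExc A
  obtain ⟨K₂, hK₂, hlarge⟩ := large4 A hA
  refine ⟨12000000 * K₁ + K₂, by positivity, ?_⟩
  intro H hH
  have hHr : (1 : ℝ) ≤ H := by exact_mod_cast hH
  have h1 := low (Exc A) K₁ hK₁ hcount H hH
  have h2 := hlarge H hH
  obtain ⟨W, hW⟩ : ∃ W : ℝ, W = ((wbox 4 H).card : ℝ) := ⟨_, rfl⟩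
  have hW0 : 0 ≤ W := by rw [hW]; positivity
  rw [← hW] at h1 h2 ⊢
  have hsub : (wbox 4 H).filter (fun a => ∃ n : ℤ, Exc A (mv a n)) ⊆
      (wbox 4 H).filter (fun a => ∃ n : ℤ, n ^ 2 ≤ (H : ℤ) ^ 13 ∧ Exc A (mv a n)) ∪
      (wbox 4 H).filter (fun a => ∃ n : ℤ, (H : ℤ) ^ 13 ≤ n ^ 2 ∧ ∃ y : ℤ,
        (y ^ 2 - (mv a n) ^ 3) ^ 2 ≤ A * |mv a n|) := by
    intro a ha
    rw [mem_filter] at ha
    obtain ⟨ha1, n, hE⟩ := ha
    rw [mem_union, mem_filter, mem_filter]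
    rcases le_total (n ^ 2) ((H : ℤ) ^ 13) with h3 | h3
    · left
      exact ⟨ha1, n, h3, hE⟩
    · right
      obtain ⟨y, _, hy⟩ := hE
      exact ⟨ha1, n, h3, y, hy.le⟩
  have h3 := (Finset.card_le_card hsub).trans (Finset.card_union_le _ _)
  have h5 : (((wbox 4 H).filter (fun a => ∃ n : ℤ, Exc A (mv a n))).card : ℝ) ≤
      (((wbox 4 H).filter (fun a => ∃ n : ℤ, n ^ 2 ≤ (H : ℤ) ^ 13 ∧ Exc A (mv a n))).card : ℝ) +
      (((wbox 4 H).filter (fun a => ∃ n : ℤ, (H : ℤ) ^ 13 ≤ n ^ 2 ∧ ∃ y : ℤ,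
        (y ^ 2 - (mv a n) ^ 3) ^ 2 ≤ A * |mv a n|)).card : ℝ) := by exact_mod_cast h3
  have h4 : (Real.sqrt H)⁻¹ ≤ ((H : ℝ) ^ (1 / 4 : ℝ))⁻¹ := by
    rw [Real.sqrt_eq_rpow, inv_le_inv₀ (by positivity) (by positivity)]
    exact Real.rpow_le_rpow_of_exponent_le hHr (by norm_num)
  calc _ ≤ _ := h5
    _ ≤ W * (12000000 * K₁ * ((H : ℝ) ^ (1 / 4 : ℝ))⁻¹) + W * (K₂ * (Real.sqrt H)⁻¹) := add_le_add h1 h2
    _ ≤ W * (12000000 * K₁ * ((H : ℝ) ^ (1 / 4 : ℝ))⁻¹) + W * (K₂ * ((H : ℝ) ^ (1 / 4 : ℝ))⁻¹) := by gcongr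
    _ = _ := by ring

end T9h23.Ad
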